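import Mathlib
import Pool.Agent.H568R2.Sens
import Pool.Agent.H592R3.Collapse

/-!
# The second moment of the sensitivity of functions of circuits of small depth
-/

set_option autoImplicit false
set_option linter.unusedSectionVars false

namespace Pool.Agent.V8H16.OW

open Finset H568R2 H592R3 DomAC0

section sens

variable {I : Type*} [Fintype I] [DecidableEq I]

/-- The variables to which `f` is sensitive at `b`. -/
def sv (f : (I → Bool) → Bool) (b : I → Bool) : Finset I :=
  univ.filter fun v => f (Function.update b v (!b v)) ≠ f b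

theorem sv_dt {f : (I → Bool) → Bool} {ρ : Restr I} {h : ℕ} (hDT : DT h (rs f ρ)) (D : I → Bool) :
    ((sv f (ov ρ D)).filter fun v => ρ v = none).card ≤ h := by
  obtain ⟨A, hA, hy⟩ := DT.cert (rs f ρ D) hDT D rfl
  refine le_trans (card_le_card ?_) hA
  intro v hv
  obtain ⟨hv1, hv2⟩ := mem_filter.1 hv
  by_contra hvA
  have h1 := hy (Function.update D v (!D v)) (fun i hi => by
    have : i ≠ v := fun h => hvA (h ▸ hi)
    rw [Function.update_of_ne this])
  have h2 : ov ρ (Function.update D v (!D v)) = Function.update (ov ρ D) v (!(ov ρ D) v) := by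
    funext i
    by_cases hi : i = v
    · subst hi
      simp [ov, hv2]
    · simp [ov, hi]
  unfold rs at h1
  rw [h2] at h1
  exact (mem_filter.1 hv1).2 h1

/-- A product measure is dominated by the restriction of another one to an event about finitely
many coordinates. -/
theorem ex_dom {A B : Type*} [Fintype A] [Fintype B] [DecidableEq B] (h : A → B) (w : A → ℝ)
    (v : B → ℝ) (hv0 : ∀ b, 0 ≤ v b)
    (hv : ∀ b, v b = ∑ a ∈ univ.filter (fun a => h a = b), w a) (G : A → Prop) [DecidablePred G]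
    {κ : ℝ} (hG : ∀ b, v b ≤ κ * ∑ a ∈ univ.filter (fun a => h a = b ∧ G a), w a)
    (V : Finset I) (F : (I → B) → ℝ) (hF : ∀ x, 0 ≤ F x) :
    Ex v F ≤ κ ^ V.card *
      Ex w (fun ω => F (fun i => h (ω i)) * (if ∀ i ∈ V, G (ω i) then 1 else 0)) := by
  classical
  have hin : Ex w (fun ω => F (fun i => h (ω i)) * (if ∀ i ∈ V, G (ω i) then 1 else 0)) =
      ∑ X : I → B, F X * ∏ i, ∑ a ∈ univ.filter (fun a => h a = X i ∧ (i ∈ V → G a)), w a := by
    unfold Ex
    have key : ∀ X : I → B, F X * ∏ i, ∑ a ∈ univ.filter (fun a => h a = X i ∧ (i ∈ V → G a)),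
        w a = ∑ ω ∈ univ.filter (fun ω : I → A => (fun i => h (ω i)) = X),
          (∏ i, w (ω i)) * (F (fun i => h (ω i)) * (if ∀ i ∈ V, G (ω i) then 1 else 0)) := by
      intro X
      have h1 : ∏ i, ∑ a ∈ univ.filter (fun a => h a = X i ∧ (i ∈ V → G a)), w a =
          ∑ ω ∈ univ.filter (fun ω : I → A => (fun i => h (ω i)) = X),
          (∏ i, w (ω i)) * (if ∀ i ∈ V, G (ω i) then 1 else 0) := by
        rw [Finset.prod_univ_sum]
        have h2 : Fintype.piFinset (fun i => univ.filter (fun a => h a = X i ∧ (i ∈ V → G a))) =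
            (univ.filter (fun ω : I → A => (fun i => h (ω i)) = X)).filter
              (fun ω => ∀ i ∈ V, G (ω i)) := by
          ext ω
          simp only [Fintype.mem_piFinset, Finset.mem_filter, Finset.mem_univ, true_and,
            funext_iff]
          constructor
          · intro hh
            exact ⟨fun i => (hh i).1, fun i hi => (hh i).2 hi⟩
          · rintro ⟨h3, h4⟩ i
            exact ⟨h3 i, h4 i⟩
        rw [h2, Finset.sum_filter]
        refine Finset.sum_congr rfl fun ω _ => ?_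
        split_ifs <;> simp
      rw [h1, Finset.mul_sum]
      refine Finset.sum_congr rfl fun ω hω => ?_
      rw [(Finset.mem_filter.1 hω).2]
      ring
    rw [Finset.sum_congr rfl fun X _ => key X]
    rw [Finset.sum_fiberwise_of_maps_to (s := univ) (t := univ)
      (g := fun ω : I → A => (fun i => h (ω i)))
      (f := fun ω : I → A => (∏ i, w (ω i)) *
        (F (fun i => h (ω i)) * (if ∀ i ∈ V, G (ω i) then 1 else 0)))]
    intro i _
    exact Finset.mem_univ _
  rw [hin, Finset.mul_sum]
  unfold Ex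
  refine Finset.sum_le_sum fun X _ => ?_
  have h1 : κ ^ V.card = ∏ i : I, (if i ∈ V then κ else 1) := by
    rw [Finset.prod_ite]
    simp
  have h2 : ∏ i, v (X i) ≤ κ ^ V.card *
      ∏ i, ∑ a ∈ univ.filter (fun a => h a = X i ∧ (i ∈ V → G a)), w a := by
    rw [h1, ← Finset.prod_mul_distrib]
    apply Finset.prod_le_prod (fun i _ => hv0 _)
    intro i _
    by_cases hi : i ∈ V
    · simp only [hi, if_true, true_implies]
      exact hG (X i)
    · simp only [hi, if_false, false_implies, and_true, one_mul]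
      exact (hv (X i)).le
  calc (∏ i, v (X i)) * F X ≤ (κ ^ V.card *
      ∏ i, ∑ a ∈ univ.filter (fun a => h a = X i ∧ (i ∈ V → G a)), w a) * F X :=
        mul_le_mul_of_nonneg_right h2 (hF X)
    _ = _ := by ring

/-- The weight of a restriction and an assignment of the stars. -/
noncomputable def w2 (q : ℝ) : Option Bool × Bool → ℝ := fun e => wq q e.1 * vp (1 / 2) e.2

theorem w2_nonneg {q : ℝ} (h0 : 0 ≤ q) (h1 : q ≤ 1) (a : Option Bool × Bool) : 0 ≤ w2 q a :=
  mul_nonneg (wq_nonneg h0 h1 _) (vp_nonneg (by norm_num) (by norm_num) _)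

open Classical in
/-- The second moment of the sensitivity is small if random restrictions are small trees. -/
theorem second_moment (f : (I → Bool) → Bool) (h : ℕ) {q : ℝ} (h0 : 0 < q) (h1 : q ≤ 1) :
    q ^ 2 * Ex (vp (1 / 2)) (fun b : I → Bool => ((sv f b).card : ℝ) ^ 2) ≤
      (h : ℝ) ^ 2 + (Fintype.card I : ℝ) ^ 2 *
        Ex (wq q) (fun ρ : Restr I => if ¬ DT h (rs f ρ) then (1 : ℝ) else 0) := by
  have e1 : ∀ b : I → Bool, ((sv f b).card : ℝ) ^ 2 = ∑ v : I, ∑ v' : I,
      ((if v ∈ sv f b then (1 : ℝ) else 0) * (if v' ∈ sv f b then (1 : ℝ) else 0)) := by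
    intro b
    rw [← sum_mul_sum, pow_two]
    simp
  have hpair : ∀ v v' : I, q ^ 2 * Ex (vp (1 / 2)) (fun b : I → Bool =>
      ((if v ∈ sv f b then (1 : ℝ) else 0) * (if v' ∈ sv f b then (1 : ℝ) else 0))) ≤
      Ex (w2 q) (fun ω : I → Option Bool × Bool =>
        ((if v ∈ sv f (fun i => (ω i).1.getD (ω i).2) then (1 : ℝ) else 0) *
          (if v' ∈ sv f (fun i => (ω i).1.getD (ω i).2) then (1 : ℝ) else 0)) *
          (if ∀ i ∈ ({v, v'} : Finset I), (ω i).1 = none then 1 else 0)) := by
    intro v v'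
    have hd := ex_dom (I := I) (fun e : Option Bool × Bool => e.1.getD e.2) (w2 q) (vp (1 / 2))
      (vp_nonneg (by norm_num) (by norm_num))
      (by
        intro b
        rw [Finset.sum_filter]
        simp only [Fintype.sum_prod_type, Fintype.sum_option, Fintype.sum_bool, w2]
        rcases b with _ | _ <;> simp [wq, vp] <;> ring)
      (fun e => e.1 = none) (κ := 1 / q)
      (by
        intro b
        rw [Finset.sum_filter]
        simp only [Fintype.sum_prod_type, Fintype.sum_option, Fintype.sum_bool, w2]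
        rcases b with _ | _ <;> simp [wq, vp] <;> field_simp <;> norm_num)
      ({v, v'} : Finset I)
      (fun b : I → Bool =>
        ((if v ∈ sv f b then (1 : ℝ) else 0) * (if v' ∈ sv f b then (1 : ℝ) else 0)))
      (fun b => mul_nonneg (by split_ifs <;> norm_num) (by split_ifs <;> norm_num))
    have hE : 0 ≤ Ex (w2 q) (fun ω : I → Option Bool × Bool =>
        ((if v ∈ sv f (fun i => (ω i).1.getD (ω i).2) then (1 : ℝ) else 0) *
          (if v' ∈ sv f (fun i => (ω i).1.getD (ω i).2) then (1 : ℝ) else 0)) *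
          (if ∀ i ∈ ({v, v'} : Finset I), (ω i).1 = none then 1 else 0)) := by
      apply Ex_nonneg (w2_nonneg h0.le h1)
      intro ω
      exact mul_nonneg (mul_nonneg (by split_ifs <;> norm_num) (by split_ifs <;> norm_num))
        (by split_ifs <;> norm_num)
    have hcard : (1 / q) ^ ({v, v'} : Finset I).card ≤ (1 / q) ^ 2 :=
      pow_le_pow_right₀ (by rw [le_div_iff₀ h0]; linarith) card_le_two
    calc _ ≤ q ^ 2 * ((1 / q) ^ 2 * Ex (w2 q) (fun ω : I → Option Bool × Bool =>
        ((if v ∈ sv f (fun i => (ω i).1.getD (ω i).2) then (1 : ℝ) else 0) *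
          (if v' ∈ sv f (fun i => (ω i).1.getD (ω i).2) then (1 : ℝ) else 0)) *
          (if ∀ i ∈ ({v, v'} : Finset I), (ω i).1 = none then 1 else 0))) := by
          apply mul_le_mul_of_nonneg_left _ (by positivity)
          exact le_trans hd (mul_le_mul_of_nonneg_right hcard hE)
      _ = _ := by
          rw [← mul_assoc, ← mul_pow, mul_one_div_cancel h0.ne', one_pow, one_mul]
  simp only [e1]
  rw [Ex_sum, mul_sum]
  simp only [Ex_sum, mul_sum]
  refine le_trans (sum_le_sum fun v _ => sum_le_sum fun v' _ => hpair v v') ?_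
  simp only [← Ex_sum]
  -- the restricted function
  have h2 : ∀ ω : I → Option Bool × Bool, ∑ v : I, ∑ v' : I,
      ((if v ∈ sv f (fun i => (ω i).1.getD (ω i).2) then (1 : ℝ) else 0) *
          (if v' ∈ sv f (fun i => (ω i).1.getD (ω i).2) then (1 : ℝ) else 0)) *
          (if ∀ i ∈ ({v, v'} : Finset I), (ω i).1 = none then 1 else 0) ≤
      (h : ℝ) ^ 2 + (Fintype.card I : ℝ) ^ 2 *
        (if ¬ DT h (rs f (fun i => (ω i).1)) then (1 : ℝ) else 0) := by
    intro ω
    set ρ : Restr I := fun i => (ω i).1 with hρ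
    set D : I → Bool := fun i => (ω i).2 with hD
    have hov : (fun i => (ω i).1.getD (ω i).2) = ov ρ D := rfl
    rw [hov]
    set T := (sv f (ov ρ D)).filter fun v => ρ v = none with hT
    have e2 : ∀ v v' : I, ((if v ∈ sv f (ov ρ D) then (1 : ℝ) else 0) *
          (if v' ∈ sv f (ov ρ D) then (1 : ℝ) else 0)) *
          (if ∀ i ∈ ({v, v'} : Finset I), (ω i).1 = none then 1 else 0) =
        (if v ∈ T then (1 : ℝ) else 0) * (if v' ∈ T then (1 : ℝ) else 0) := by
      intro v v'
      have e3 : (∀ i ∈ ({v, v'} : Finset I), (ω i).1 = none) ↔ (ρ v = none ∧ ρ v' = none) := by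
        simp [hρ]
      rw [if_congr e3 rfl rfl]
      clear_value ρ D
      by_cases a1 : v ∈ sv f (ov ρ D) <;> by_cases a2 : v' ∈ sv f (ov ρ D) <;>
        by_cases a3 : ρ v = none <;> by_cases a4 : ρ v' = none <;>
        simp [hT, mem_filter, a1, a2, a3, a4]
    simp only [e2]
    rw [← sum_mul_sum]
    have e4 : ∑ v : I, (if v ∈ T then (1 : ℝ) else 0) = T.card := by simp
    rw [e4, ← pow_two]
    by_cases hDT : DT h (rs f ρ)
    · rw [if_neg (not_not.2 hDT), mul_zero, add_zero]
      have : (T.card : ℝ) ≤ h := by exact_mod_cast sv_dt hDT D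
      exact pow_le_pow_left₀ (Nat.cast_nonneg _) this 2
    · rw [if_pos hDT, mul_one]
      have : (T.card : ℝ) ≤ Fintype.card I := by exact_mod_cast card_le_univ T
      have h3 := pow_le_pow_left₀ (Nat.cast_nonneg _) this 2
      have h4 : (0 : ℝ) ≤ (h : ℝ) ^ 2 := by positivity
      linarith
  refine le_trans (Ex_mono (w2_nonneg h0.le h1) h2) ?_
  have e5 := Ex_prod (I := I) (wq q) (vp (1 / 2)) (fun ω => (h : ℝ) ^ 2 + (Fintype.card I : ℝ) ^ 2 *
        (if ¬ DT h (rs f (fun i => (ω i).1)) then (1 : ℝ) else 0))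
  have e6 : Ex (w2 q) (fun ω : I → Option Bool × Bool => (h : ℝ) ^ 2 + (Fintype.card I : ℝ) ^ 2 *
        (if ¬ DT h (rs f (fun i => (ω i).1)) then (1 : ℝ) else 0)) =
      Ex (fun c : Option Bool × Bool => wq q c.1 * vp (1 / 2) c.2)
        (fun ω : I → Option Bool × Bool => (h : ℝ) ^ 2 + (Fintype.card I : ℝ) ^ 2 *
        (if ¬ DT h (rs f (fun i => (ω i).1)) then (1 : ℝ) else 0)) := rfl
  rw [e6, e5]
  have e7 : (fun α : I → Option Bool => Ex (vp (1 / 2)) (fun _ : I → Bool =>
      (h : ℝ) ^ 2 + (Fintype.card I : ℝ) ^ 2 *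
        (if ¬ DT h (rs f (fun i => α i)) then (1 : ℝ) else 0))) =
      fun α : I → Option Bool => (h : ℝ) ^ 2 + (Fintype.card I : ℝ) ^ 2 *
        (if ¬ DT h (rs f α) then (1 : ℝ) else 0) := by
    funext α
    exact Ex_const (vp_sum (1 / 2)) _
  refine le_of_eq ?_
  calc _ = Ex (wq q) (fun α : I → Option Bool => Ex (vp (1 / 2)) (fun _ : I → Bool =>
      (h : ℝ) ^ 2 + (Fintype.card I : ℝ) ^ 2 *
        (if ¬ DT h (rs f (fun i => α i)) then (1 : ℝ) else 0))) := rfl
    _ = _ := by
      rw [e7, Ex_add, Ex_const (wq_sum q), Ex_smul]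

end sens

end Pool.Agent.V8H16.OW
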