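import Mathlib
import Pool.Agent.V8H16.OW.Sens
import Pool.Agent.H592R3.Collapse

/-!
# Initial parts of gates

The initial part `i` of a gate consists of its inputs and its first `i` gates.
-/

set_option autoImplicit false
set_option linter.unusedSectionVars false

namespace Pool.Agent.V8H16.OW

open Finset H568R2 DomAC0
open H592R3 (DT switching)

section parts

variable {J : Type}

/-- The inputs which are read by a gate. -/
noncomputable def inps (C : Circuit J) (g : Fin C.size) : List (J ⊕ Fin C.size) :=
  ((C.preds g).filter fun v => v.isLeft = true).toList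

/-- The gates which are read by a gate. -/
noncomputable def gats (C : Circuit J) (g : Fin C.size) : List (J ⊕ Fin C.size) :=
  ((C.preds g).filter fun v => v.isRight = true).toList

/-- The number of gates plus the number of wires between gates. -/
noncomputable def cost (C : Circuit J) : ℕ :=
  ∑ g : Fin C.size, (1 + ((C.preds g).filter fun v => v.isRight = true).card)

/-- The function computed by an initial part of a gate. -/
noncomputable def pre (C : Circuit J) (g : Fin C.size) (i : ℕ) (x : J → Bool) : Bool :=
  gfun C g x (inps C g ++ (gats C g).take i)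

theorem length_gats (C : Circuit J) (g : Fin C.size) :
    (gats C g).length = ((C.preds g).filter fun v => v.isRight = true).card := by
  unfold gats
  rw [Finset.length_toList]

theorem mem_inps {C : Circuit J} {g : Fin C.size} {v : J ⊕ Fin C.size} :
    v ∈ inps C g ↔ v ∈ C.preds g ∧ v.isLeft = true := by
  unfold inps
  rw [Finset.mem_toList, mem_filter]

theorem mem_gats {C : Circuit J} {g : Fin C.size} {v : J ⊕ Fin C.size} :
    v ∈ gats C g ↔ v ∈ C.preds g ∧ v.isRight = true := by
  unfold gats
  rw [Finset.mem_toList, mem_filter]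

theorem mem_part {C : Circuit J} {g : Fin C.size} {i : ℕ} {v : J ⊕ Fin C.size}
    (hv : v ∈ inps C g ++ (gats C g).take i) : v ∈ C.preds g := by
  rcases List.mem_append.1 hv with h | h
  · exact (mem_inps.1 h).1
  · exact (mem_gats.1 (List.mem_of_mem_take h)).1

theorem gfun_congr (C : Circuit J) (g : Fin C.size) (x : J → Bool) {Q Q' : List (J ⊕ Fin C.size)}
    (h : ∀ v, v ∈ Q ↔ v ∈ Q') : gfun C g x Q = gfun C g x Q' := by
  unfold gfun
  cases C.kind g <;> simp only [h]

theorem pre_min (C : Circuit J) (g : Fin C.size) (i : ℕ) (x : J → Bool) :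
    pre C g i x = pre C g (min i (gats C g).length) x := by
  unfold pre
  congr 2
  rcases le_total i (gats C g).length with h | h
  · rw [min_eq_left h]
  · rw [min_eq_right h, List.take_length, List.take_of_length_le h]

theorem pre_full (C : Circuit J) (g : Fin C.size) (x : J → Bool) :
    pre C g (gats C g).length x = C.gateVal x g := by
  unfold pre
  rw [gateVal_eq, List.take_length]
  apply gfun_congr
  intro v
  rw [List.mem_append, mem_inps, mem_gats, Finset.mem_toList]
  constructor
  · rintro (h | h) <;> exact h.1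
  · intro h
    cases v with
    | inl j => exact Or.inl ⟨h, rfl⟩
    | inr g => exact Or.inr ⟨h, rfl⟩

end parts

section coll

variable {I : Type*} [Fintype I] [DecidableEq I] {J : Type}

/-- All initial parts of the gates of depth at most `j` are small trees under `ρ`. -/
def Fine (C : Circuit J) (σ : (I → Bool) → (J → Bool)) (h j : ℕ) (ρ : Restr I) : Prop :=
  ∀ g : Fin C.size, C.gateDepth g ≤ j → ∀ i : ℕ, DT h (rs (fun x => pre C g i (σ x)) ρ)

theorem fine_cert (C : Circuit J) (σ : (I → Bool) → (J → Bool))
    (hσ : ∀ j, Junta 1 (fun x => σ x j)) {h j : ℕ} (hh : 1 ≤ h) {ρ : Restr I}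
    (hG : Fine C σ h j ρ) (v : J ⊕ Fin C.size) (hv : C.nodeDepth v ≤ j) (b : Bool) :
    Cert h b (rs (fun x => C.nodeVal (σ x) v) ρ) := by
  cases v with
  | inl i => exact ((((hσ i).rs ρ).mono hh).cert b)
  | inr g =>
    have := hG g hv (gats C g).length
    have h2 : (fun x => C.nodeVal (σ x) (Sum.inr g)) = fun x => pre C g (gats C g).length (σ x) := by
      funext x
      rw [pre_full]
      rfl
    rw [h2]
    exact this.cert b

open Classical in
theorem collapse (C : Circuit J) (σ : (I → Bool) → (J → Bool))
    (hσ : ∀ j, Junta 1 (fun x => σ x j)) {q : ℝ} (h0 : 0 ≤ q) (h1 : q ≤ 1 / 3) {h : ℕ}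
    (hh : 1 ≤ h) : ∀ j : ℕ,
    Ex (wq (q ^ j)) (fun ρ : Restr I => if ¬ Fine C σ h j ρ then (1 : ℝ) else 0) ≤
      j * (cost C : ℝ) * (12 * h * q) ^ (h + 1) := by
  intro j
  induction j with
  | zero =>
    have hgood : ∀ ρ : Restr I, Fine C σ h 0 ρ := by
      intro ρ g hg
      have : 0 < C.gateDepth g := by rw [Circuit.gateDepth]; omega
      omega
    simp only [hgood, not_true, if_false]
    unfold Ex
    simp
  | succ j ih =>
    rw [pow_succ, wq_cmp]
    set ε : ℝ := (12 * h * q) ^ (h + 1) with hε
    have hε0 : 0 ≤ ε := by positivity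
    have hwj : ∀ a, 0 ≤ wq (q ^ j) a :=
      wq_nonneg (pow_nonneg h0 j) (pow_le_one₀ h0 (by linarith))
    have hw1 : ∀ a, 0 ≤ wq q a := wq_nonneg h0 (by linarith)
    have hin : ∀ ρ : Restr I, Ex (wq q) (fun τ : Restr I =>
        if ¬ Fine C σ h (j + 1) (cmp ρ τ) then (1 : ℝ) else 0) ≤
        (if ¬ Fine C σ h j ρ then (1 : ℝ) else 0) + (cost C : ℝ) * ε := by
      intro ρ
      by_cases hG : Fine C σ h j ρ
      · simp only [hG, not_true, if_false, zero_add]
        set T : Finset (Σ _ : Fin C.size, ℕ) :=
          (univ.filter (fun g : Fin C.size => C.gateDepth g ≤ j + 1)).sigma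
            (fun g => Finset.range (1 + (gats C g).length)) with hT
        have hpt : ∀ τ : Restr I, (if ¬ Fine C σ h (j + 1) (cmp ρ τ) then (1 : ℝ) else 0) ≤
            ∑ gi ∈ T, (if ¬ DT h
                (rs (rs (fun x => pre C gi.1 gi.2 (σ x)) ρ) τ) then (1 : ℝ) else 0) := by
          intro τ
          have hnn : ∀ gi ∈ T, (0 : ℝ) ≤ (if ¬ DT h
                (rs (rs (fun x => pre C gi.1 gi.2 (σ x)) ρ) τ) then (1 : ℝ) else 0) := by
            intro gi _
            split_ifs <;> norm_num
          by_cases hGG : Fine C σ h (j + 1) (cmp ρ τ)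
          · simp only [hGG, not_true, if_false]
            exact Finset.sum_nonneg hnn
          · simp only [hGG, not_false_iff, if_true]
            have hex : ∃ g : Fin C.size, C.gateDepth g ≤ j + 1 ∧ ∃ i : ℕ,
                ¬ DT h (rs (fun x => pre C g i (σ x)) (cmp ρ τ)) := by
              by_contra hcon
              apply hGG
              intro g hg i
              by_contra hJ
              exact hcon ⟨g, hg, i, hJ⟩
            obtain ⟨g, hg, i, hJ⟩ := hex
            rw [rs_cmp] at hJ
            have htake : (fun x => pre C g i (σ x)) =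
                fun x => pre C g (min i (gats C g).length) (σ x) := by
              funext x
              exact pre_min C g i (σ x)
            have hmem : (⟨g, min i (gats C g).length⟩ : Σ _ : Fin C.size, ℕ) ∈ T := by
              rw [hT, Finset.mem_sigma, Finset.mem_filter, Finset.mem_range]
              refine ⟨⟨Finset.mem_univ _, hg⟩, ?_⟩
              have h4 := min_le_right i (gats C g).length
              show min i (gats C g).length < 1 + (gats C g).length
              omega
            refine le_trans ?_ (Finset.single_le_sum hnn hmem)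
            rw [if_pos]
            rw [htake] at hJ
            exact hJ
        refine (Ex_mono hw1 hpt).trans ?_
        rw [Ex_sum]
        have hterm : ∀ gi ∈ T, Ex (wq q) (fun τ : Restr I => (if ¬ DT h
                (rs (rs (fun x => pre C gi.1 gi.2 (σ x)) ρ) τ) then (1 : ℝ) else 0)) ≤ ε := by
          rintro ⟨g, i⟩ hgi
          rw [hT, Finset.mem_sigma, Finset.mem_filter] at hgi
          have hgd : C.gateDepth g ≤ j + 1 := hgi.1.2
          obtain ⟨b, hb⟩ := H592R3.gate_cert C σ (K := h) (ρ := ρ) g
            (inps C g ++ (gats C g).take i) (by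
            intro v hv
            apply fine_cert C σ hσ hh hG
            have := depth_lt C g v (mem_part hv)
            omega)
          exact switching h0 h1 hb
        refine (Finset.sum_le_card_nsmul _ _ _ hterm).trans ?_
        rw [nsmul_eq_mul]
        apply mul_le_mul_of_nonneg_right _ hε0
        rw [hT, Finset.card_sigma]
        have h5 : ∑ g ∈ univ.filter (fun g : Fin C.size => C.gateDepth g ≤ j + 1),
            (Finset.range (1 + (gats C g).length)).card ≤ cost C := by
          unfold cost
          simp only [Finset.card_range, length_gats]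
          exact Finset.sum_le_sum_of_subset (Finset.filter_subset _ _)
        exact_mod_cast h5
      · simp only [hG, not_false_iff, if_true]
        have h2 : Ex (wq q) (fun τ : Restr I =>
            if ¬ Fine C σ h (j + 1) (cmp ρ τ) then (1 : ℝ) else 0) ≤
            Ex (wq q) (fun _ : Restr I => (1 : ℝ)) := by
          apply Ex_mono hw1
          intro τ
          split_ifs <;> norm_num
        rw [Ex_const (wq_sum q)] at h2
        have : 0 ≤ (cost C : ℝ) * ε := by positivity
        linarith
    refine (Ex_mono hwj hin).trans ?_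
    rw [Ex_add, Ex_const (wq_sum (q ^ j))]
    push_cast at ih ⊢
    linarith

open Classical in
/-- The second moment of the sensitivity of the initial parts of gates of small depth. -/
theorem gate_moment (C : Circuit J) (σ : (I → Bool) → (J → Bool))
    (hσ : ∀ j, Junta 1 (fun x => σ x j)) {h k : ℕ} (hh : 1 ≤ h) (g : Fin C.size)
    (hg : C.gateDepth g ≤ k) (i : ℕ) :
    Ex (vp (1 / 2)) (fun b : I → Bool =>
      ((sv (fun x => pre C g i (σ x)) b).card : ℝ) ^ 2) ≤
    (24 * h : ℝ) ^ (2 * k) * ((h : ℝ) ^ 2 + (Fintype.card I : ℝ) ^ 2 *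
      (k * (cost C : ℝ) * (1 / 2) ^ (h + 1))) := by
  have hh0 : (0 : ℝ) < h := by exact_mod_cast hh
  have hh1 : (1 : ℝ) ≤ h := by exact_mod_cast hh
  set q : ℝ := 1 / (24 * h) with hq
  have hq0 : 0 < q := by positivity
  have hq3 : q ≤ 1 / 3 := by
    rw [hq]
    apply one_div_le_one_div_of_le (by norm_num)
    linarith
  have hqk0 : 0 < q ^ k := by positivity
  have hqk1 : q ^ k ≤ 1 := pow_le_one₀ hq0.le (by linarith)
  have hm := second_moment (fun x => pre C g i (σ x)) h hqk0 hqk1
  have hc := collapse C σ hσ hq0.le hq3 hh k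
  have h2 : (12 * h * q : ℝ) = 1 / 2 := by
    rw [hq]
    field_simp
    norm_num
  rw [h2] at hc
  have h3 : Ex (wq (q ^ k)) (fun ρ : Restr I =>
      if ¬ DT h (rs (fun x => pre C g i (σ x)) ρ) then (1 : ℝ) else 0) ≤
      k * (cost C : ℝ) * (1 / 2) ^ (h + 1) := by
    refine le_trans (Ex_mono (wq_nonneg hqk0.le hqk1) fun ρ => ?_) hc
    by_cases hG : Fine C σ h k ρ
    · have := hG g hg i
      simp [hG, this]
    · rw [if_pos hG]
      split_ifs <;> norm_num
  have h4 := le_trans hm (add_le_add_right (mul_le_mul_of_nonneg_left h3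
    (by positivity : (0 : ℝ) ≤ (Fintype.card I : ℝ) ^ 2)) ((h : ℝ) ^ 2))
  have h5 : (q ^ k) ^ 2 * (24 * h : ℝ) ^ (2 * k) = 1 := by
    rw [← pow_mul, mul_comm k 2, ← mul_pow, hq, one_div_mul_cancel (by positivity), one_pow]
  calc _ = ((q ^ k) ^ 2 * (24 * h : ℝ) ^ (2 * k)) * Ex (vp (1 / 2)) (fun b : I → Bool =>
      ((sv (fun x => pre C g i (σ x)) b).card : ℝ) ^ 2) := by rw [h5, one_mul]
    _ = (24 * h : ℝ) ^ (2 * k) * ((q ^ k) ^ 2 * Ex (vp (1 / 2)) (fun b : I → Bool =>
      ((sv (fun x => pre C g i (σ x)) b).card : ℝ) ^ 2)) := by ring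
    _ ≤ _ := mul_le_mul_of_nonneg_left h4 (by positivity)

end coll

end Pool.Agent.V8H16.OW
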