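import Mathlib
import Pool.Agent.V8H16.OW.Coll

/-!
# Joint dependence on two rows
-/

set_option autoImplicit false
set_option linter.unusedSectionVars false

open Finset Classical

namespace Pool.Agent.V8H16.OW

open H568R2 (gfun depth_lt)
open DomAC0

/-- The function of two bits depends on at most one of them. -/
def NJ (f : Bool → Bool → Bool) : Prop :=
  (∀ e, f false e = f true e) ∨ (∀ e, f e false = f e true)

/-- One function depends on the first bit, the other one on the second bit (at the origin). -/
def Pair (f g : Bool → Bool → Bool) : Prop :=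
  (f false false ≠ f true false ∧ g false false ≠ g false true) ∨
    (g false false ≠ g true false ∧ f false false ≠ f false true)

theorem nj_comp (φ : Bool → Bool → Bool) {f g : Bool → Bool → Bool} (hf : NJ f) (hg : NJ g)
    (hp : ¬ Pair f g) : NJ (fun a b => φ (f a b) (g a b)) := by
  unfold Pair at hp
  push Not at hp
  obtain ⟨hp1, hp2⟩ := hp
  rcases hf with hf | hf <;> rcases hg with hg | hg
  · left
    intro e
    simp only [hf e, hg e]
  · by_cases h : g false false = g true false
    · left
      intro e
      have h1 : g false e = g true e := by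
        cases e
        · exact h
        · rw [← hg false, ← hg true, h]
      simp only [hf e, h1]
    · right
      intro e
      have h1 : f e false = f e true := by
        cases e
        · exact hp2 h
        · rw [← hf false, ← hf true, hp2 h]
      simp only [hg e, h1]
  · by_cases h : f false false = f true false
    · left
      intro e
      have h1 : f false e = f true e := by
        cases e
        · exact h
        · rw [← hf false, ← hf true, h]
      simp only [hg e, h1]
    · right
      intro e
      have h1 : g e false = g e true := by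
        cases e
        · exact hp1 h
        · rw [← hg false, ← hg true, hp1 h]
      simp only [hf e, h1]
  · right
    intro e
    simp only [hf e, hg e]

/-- The point `W` with new values in the row `r` (if `e1` is true) and in the row `s` (if `e2` is
true). -/
def sq {R X : Type*} [DecidableEq R] (W : R → X) (r s : R) (ξ η : X) (e1 e2 : Bool) : R → X :=
  fun t => if t = r then (if e1 then ξ else W t) else if t = s then (if e2 then η else W t) else W t

section sq

variable {R X : Type*} [DecidableEq R]

theorem sq_ff (W : R → X) (r s : R) (ξ η : X) : sq W r s ξ η false false = W := by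
  funext t
  simp [sq]

theorem sq_tf (W : R → X) (r s : R) (ξ η : X) :
    sq W r s ξ η true false = Function.update W r ξ := by
  funext t
  by_cases h : t = r
  · subst h; simp [sq]
  · simp [sq, h]

theorem sq_ft (W : R → X) {r s : R} (hrs : r ≠ s) (ξ η : X) :
    sq W r s ξ η false true = Function.update W s η := by
  funext t
  by_cases h : t = r
  · subst h; simp [sq, hrs]
  · by_cases h2 : t = s
    · subst h2; simp [sq, h]
    · simp [sq, h, h2]

theorem sq_tt (W : R → X) {r s : R} (hrs : r ≠ s) (ξ η : X) :
    sq W r s ξ η true true = Function.update (Function.update W r ξ) s η := by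
  funext t
  by_cases h : t = r
  · subst h; simp [sq, hrs]
  · by_cases h2 : t = s
    · subst h2; simp [sq, h]
    · simp [sq, h, h2]

end sq

section gates

variable {J : Type} (C : Circuit J)

/-- A node is added to a gate. -/
def step (κ : GateKind) (a b : Bool) : Bool :=
  match κ with
  | GateKind.and => a && b
  | GateKind.or => a || b
  | GateKind.not => a && !b

theorem gfun_snoc (g : Fin C.size) (x : J → Bool) (Q : List (J ⊕ Fin C.size))
    (v : J ⊕ Fin C.size) : gfun C g x (Q ++ [v]) = step (C.kind g) (gfun C g x Q) (C.nodeVal x v) := by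
  unfold gfun step
  cases C.kind g with
  | and =>
    rw [Bool.eq_iff_iff]
    simp only [List.mem_append, List.mem_singleton, decide_eq_true_eq, Bool.and_eq_true]
    constructor
    · intro h
      exact ⟨fun w hw => h w (Or.inl hw), h v (Or.inr rfl)⟩
    · rintro ⟨h1, h2⟩ w (hw | rfl)
      · exact h1 w hw
      · exact h2
  | or =>
    rw [Bool.eq_iff_iff]
    simp only [List.mem_append, List.mem_singleton, decide_eq_true_eq, Bool.or_eq_true]
    constructor
    · rintro ⟨w, hw | rfl, h⟩
      · exact Or.inl ⟨w, hw, h⟩
      · exact Or.inr h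
    · rintro (⟨w, hw, h⟩ | h)
      · exact ⟨w, Or.inl hw, h⟩
      · exact ⟨v, Or.inr rfl, h⟩
  | not =>
    rw [Bool.eq_iff_iff]
    simp only [List.mem_append, List.mem_singleton, decide_eq_true_eq, Bool.and_eq_true,
      Bool.not_eq_true']
    constructor
    · intro h
      exact ⟨fun w hw => h w (Or.inl hw), h v (Or.inr rfl)⟩
    · rintro ⟨h1, h2⟩ w (hw | rfl)
      · exact h1 w hw
      · exact h2

theorem pre_succ (g : Fin C.size) (i : Fin (gats C g).length) (x : J → Bool) :
    pre C g (i + 1) x = step (C.kind g) (pre C g i x) (C.nodeVal x ((gats C g).get i)) := by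
  unfold pre
  rw [← gfun_snoc, List.append_assoc]
  congr 2
  rw [List.take_succ_eq_append_getElem i.2]
  rfl

theorem nj_chain (g : Fin C.size) (F : Bool → Bool → J → Bool)
    (h0 : NJ (fun a b => pre C g 0 (F a b)))
    (h1 : ∀ i : Fin (gats C g).length, NJ (fun a b => C.nodeVal (F a b) ((gats C g).get i)))
    (h2 : ∀ i : Fin (gats C g).length,
      ¬ Pair (fun a b => pre C g i (F a b)) (fun a b => C.nodeVal (F a b) ((gats C g).get i))) :
    NJ (fun a b => C.gateVal (F a b) g) := by
  have h : ∀ i ≤ (gats C g).length, NJ (fun a b => pre C g i (F a b)) := by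
    intro i
    induction i with
    | zero => exact fun _ => h0
    | succ i ih =>
      intro hi
      have e : (fun a b => pre C g (i + 1) (F a b)) = fun a b => step (C.kind g)
          (pre C g i (F a b)) (C.nodeVal (F a b) ((gats C g).get ⟨i, hi⟩)) := by
        funext a b
        exact pre_succ C g ⟨i, hi⟩ (F a b)
      rw [e]
      exact nj_comp (step (C.kind g)) (ih (by omega)) (h1 ⟨i, hi⟩) (h2 ⟨i, hi⟩)
  have h3 := h _ le_rfl
  have e : (fun a b => pre C g (gats C g).length (F a b)) = fun a b => C.gateVal (F a b) g := by
    funext a b
    exact pre_full C g (F a b)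
  rwa [e] at h3

theorem nj_gate (F : Bool → Bool → J → Bool) (k : ℕ)
    (h0 : ∀ g, C.gateDepth g ≤ k → NJ (fun a b => pre C g 0 (F a b)))
    (h2 : ∀ g, C.gateDepth g ≤ k → ∀ i : Fin (gats C g).length,
      ¬ Pair (fun a b => pre C g i (F a b)) (fun a b => C.nodeVal (F a b) ((gats C g).get i))) :
    ∀ (N : ℕ) (g : Fin C.size), g.val < N → C.gateDepth g ≤ k →
      NJ (fun a b => C.gateVal (F a b) g) := by
  intro N
  induction N with
  | zero => intro g hg; omega
  | succ N ih =>
    intro g hg hk
    refine nj_chain C g F (h0 g hk) (fun i => ?_) (h2 g hk)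
    have hm : (gats C g).get i ∈ gats C g := List.get_mem _ _
    obtain ⟨hm1, hm2⟩ := mem_gats.1 hm
    have hd := depth_lt C g _ hm1
    generalize (gats C g).get i = v at *
    cases v with
    | inl j => simp at hm2
    | inr g' =>
      have h3 : g' < g := C.acyclic g g' hm1
      have h4 : C.gateDepth g' ≤ k := by
        have : C.nodeDepth (Sum.inr g') = C.gateDepth g' := rfl
        omega
      exact ih g' (by have : g'.val < g.val := h3; omega) h4

/-- A circuit depends on two rows jointly only if this happens for the inputs of a gate or if an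
initial part of a gate and the next gate depend on different rows. -/
theorem nj_eval (F : Bool → Bool → J → Bool) {k : ℕ} (hk : C.depth ≤ k)
    (hJ : ∀ j, NJ (fun a b => F a b j)) (h : ¬ NJ (fun a b => C.eval (F a b))) :
    ∃ g, C.gateDepth g ≤ k ∧ (¬ NJ (fun a b => pre C g 0 (F a b)) ∨
      ∃ i : Fin (gats C g).length,
      Pair (fun a b => pre C g i (F a b)) (fun a b => C.nodeVal (F a b) ((gats C g).get i))) := by
  by_contra hcon
  push Not at hcon
  apply h
  have key := nj_gate C F k (fun g hg => (hcon g hg).1) (fun g hg => (hcon g hg).2)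
  have hout : ∀ v : J ⊕ Fin C.size, C.nodeDepth v ≤ k → NJ (fun a b => C.nodeVal (F a b) v) := by
    intro v hv
    cases v with
    | inl j => exact hJ j
    | inr g => exact key C.size g g.2 hv
  exact hout C.output hk

end gates

section sep

variable {R X : Type*} [DecidableEq R]

/-- The function or its negation is the conjunction of functions of single rows. -/
def Sep (O : (R → X) → Bool) : Prop :=
  ∃ (A : R → X → Prop) (c : Bool), ∀ W, O W = c ↔ ∀ t, A t (W t)

theorem nj_sep {O : (R → X) → Bool} (hO : Sep O) (W : R → X) {r s : R} (hrs : r ≠ s) :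
    ∃ P Q : X → Prop, ∀ ξ η, ¬ NJ (fun a b => O (sq W r s ξ η a b)) ↔ P ξ ∧ Q η := by
  obtain ⟨A, c, hA⟩ := hO
  by_cases hc : ∀ t, t ≠ r → t ≠ s → A t (W t)
  · refine ⟨fun ξ => ¬ (A r ξ ↔ A r (W r)), fun η => ¬ (A s η ↔ A s (W s)), fun ξ η => ?_⟩
    have hv : ∀ a b : Bool, O (sq W r s ξ η a b) = c ↔
        (A r (if a then ξ else W r) ∧ A s (if b then η else W s)) := by
      intro a b
      rw [hA]
      constructor
      · intro h
        have h1 := h r
        have h2 := h s
        simp only [sq, if_true] at h1
        simp only [sq, hrs.symm, if_false, if_true] at h2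
        exact ⟨h1, h2⟩
      · rintro ⟨h1, h2⟩ t
        by_cases ht : t = r
        · subst ht
          simpa [sq] using h1
        · by_cases ht2 : t = s
          · subst ht2
            simpa [sq, ht] using h2
          · simpa [sq, ht, ht2] using hc t ht ht2
    have hv' : ∀ a b : Bool, O (sq W r s ξ η a b) =
        if (A r (if a then ξ else W r) ∧ A s (if b then η else W s)) then c else !c := by
      intro a b
      by_cases h : A r (if a = true then ξ else W r) ∧ A s (if b = true then η else W s)
      · rw [if_pos h]
        exact (hv a b).2 h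
      · rw [if_neg h]
        have h3 : O (sq W r s ξ η a b) ≠ c := fun h' => h ((hv a b).1 h')
        revert h3
        cases O (sq W r s ξ η a b) <;> cases c <;> simp
    unfold NJ
    simp only [Bool.forall_bool, hv', if_true, Bool.false_eq_true, if_false]
    by_cases u0 : A r (W r) <;> by_cases u1 : A r ξ <;> by_cases v0 : A s (W s) <;>
      by_cases v1 : A s η <;> cases c <;> simp [u0, u1, v0, v1]
  · refine ⟨fun _ => False, fun _ => False, fun ξ η => ?_⟩
    push Not at hc
    obtain ⟨t, ht1, ht2, ht3⟩ := hc
    have hv : ∀ a b : Bool, O (sq W r s ξ η a b) ≠ c := by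
      intro a b h
      have := (hA _).1 h t
      simp only [sq, ht1, ht2, if_false] at this
      exact ht3 this
    have hv' : ∀ a b : Bool, O (sq W r s ξ η a b) = !c := by
      intro a b
      have h3 := hv a b
      revert h3
      cases O (sq W r s ξ η a b) <;> cases c <;> simp
    unfold NJ
    simp [hv']

/-- The part of a gate which consists of inputs. -/
theorem sep_pre {J : Type} (C : Circuit J) (row : J → R) (val : J → X → Bool) (g : Fin C.size) :
    Sep (fun W : R → X => pre C g 0 (fun j => val j (W (row j)))) := by
  have h : ∀ (x : J → Bool) (P : Bool → Prop), (∀ v ∈ inps C g ++ (gats C g).take 0,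
      P (C.nodeVal x v)) ↔ ∀ j, Sum.inl j ∈ C.preds g → P (x j) := by
    intro x P
    rw [List.take_zero, List.append_nil]
    constructor
    · intro h j hj
      exact h _ (mem_inps.2 ⟨hj, rfl⟩)
    · intro h v hv
      obtain ⟨hv1, hv2⟩ := mem_inps.1 hv
      cases v with
      | inl j => exact h j hv1
      | inr g => simp at hv2
  have h2 : ∀ (b : Bool) (W : R → X), (∀ v ∈ inps C g ++ (gats C g).take 0,
      C.nodeVal (fun j => val j (W (row j))) v = b) ↔
      ∀ t, ∀ j, Sum.inl j ∈ C.preds g → row j = t → val j (W t) = b := by
    intro b W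
    rw [h (fun j => val j (W (row j))) (fun y => y = b)]
    constructor
    · rintro h t j hj rfl
      exact h j hj
    · intro h j hj
      exact h (row j) j hj rfl
  cases hk : C.kind g with
  | and =>
    refine ⟨fun t ξ => ∀ j, Sum.inl j ∈ C.preds g → row j = t → val j ξ = true, true, fun W => ?_⟩
    rw [← h2 true W]
    simp only [pre, gfun, hk, decide_eq_true_eq]
  | or =>
    refine ⟨fun t ξ => ∀ j, Sum.inl j ∈ C.preds g → row j = t → val j ξ = false, false, fun W => ?_⟩
    rw [← h2 false W]
    simp only [pre, gfun, hk, decide_eq_false_iff_not, not_exists, not_and, Bool.not_eq_true]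
  | not =>
    refine ⟨fun t ξ => ∀ j, Sum.inl j ∈ C.preds g → row j = t → val j ξ = false, true, fun W => ?_⟩
    rw [← h2 false W]
    simp only [pre, gfun, hk, decide_eq_true_eq]

end sep

end Pool.Agent.V8H16.OW
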