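import Mathlib
import Pool.Agent.V8H16.OW.Sens
import Pool.Agent.V8H16.OV.Tree

/-!
# Resampling of rows
-/

set_option autoImplicit false
set_option linter.unusedSectionVars false

open Finset Classical

namespace Pool.Agent.V8H16.OW

open Pool.Agent.V8H16.OV (cnt)
open H568R2 (Ex vp vp_sum vp_nonneg Ex_const Ex_mono Ex_sum Ex_smul)

section resample

variable {R X : Type*} [Fintype R] [DecidableEq R] [Fintype X]

/-- The value of the row `r` is exchanged. -/
def swp (r : R) (p : (R → X) × X) : (R → X) × X := (Function.update p.1 r p.2, p.1 r)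

theorem swp_inv (r : R) : Function.Involutive (swp (X := X) r) := by
  rintro ⟨W, ξ⟩
  simp [swp]

theorem sum_swp (r : R) (G : (R → X) × X → ℝ) : ∑ p, G (swp r p) = ∑ p, G p :=
  Equiv.sum_comp (swp_inv r).toPerm G

theorem sum_update_row (r : R) (F : (R → X) → ℝ) :
    ∑ W : R → X, ∑ ξ : X, F (Function.update W r ξ) = Fintype.card X * ∑ W, F W := by
  have h := sum_swp r (fun p : (R → X) × X => F p.1)
  rw [Fintype.sum_prod_type, Fintype.sum_prod_type] at h
  have h2 : ∀ W : R → X, ∑ ξ : X, F W = Fintype.card X * F W := fun W => by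
    rw [sum_const, card_univ, nsmul_eq_mul]
  simp only [h2] at h
  rw [← mul_sum] at h
  exact h

theorem sum_coord (r : R) (F : X → ℝ) :
    Fintype.card X * ∑ W : R → X, F (W r) = Fintype.card (R → X) * ∑ ξ, F ξ := by
  rw [← sum_update_row r (fun W => F (W r))]
  simp only [Function.update_self]
  rw [sum_const, card_univ, nsmul_eq_mul]

theorem cnt_sum {α : Type*} [Fintype α] (P : α → Prop) [DecidablePred P] :
    (cnt P : ℝ) = ∑ a, if P a then (1 : ℝ) else 0 := by
  have h : cnt P = (univ.filter P).card := by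
    unfold cnt
    congr
  rw [h, card_filter]
  push_cast
  rfl

/-- The expected number of the rows to which `a` is sensitive. -/
noncomputable def sens (a : (R → X) → Bool) (W : R → X) : ℝ :=
  ∑ r, (cnt (fun ξ : X => a (Function.update W r ξ) ≠ a W) : ℝ) / Fintype.card X

/-- The number of the rows `r` with `a W ≠ a W'`, where `W'` takes the value of the second point in
the row `r`. -/
noncomputable def dn (a : (R → X) → Bool) (W W' : R → X) : ℝ :=
  ((univ.filter fun r => a (Function.update W r (W' r)) ≠ a W).card : ℝ)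

theorem sens_sq (a : (R → X) → Bool) (W : R → X) (hX : 0 < Fintype.card X) :
    Fintype.card (R → X) * sens a W ^ 2 ≤ ∑ W' : R → X, dn a W W' ^ 2 := by
  have hX' : (0 : ℝ) < Fintype.card X := by exact_mod_cast hX
  have : Nonempty X := Fintype.card_pos_iff.1 hX
  have hN : (0 : ℝ) < Fintype.card (R → X) := by exact_mod_cast Fintype.card_pos
  have h1 : ∑ W' : R → X, dn a W W' = Fintype.card (R → X) * sens a W := by
    have e1 : ∀ W' : R → X, dn a W W' =
        ∑ r, if a (Function.update W r (W' r)) ≠ a W then (1 : ℝ) else 0 := by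
      intro W'
      unfold dn
      rw [card_filter]
      push_cast
      rfl
    simp only [e1]
    rw [sum_comm]
    unfold sens
    rw [mul_sum]
    refine sum_congr rfl fun r _ => ?_
    have e2 := sum_coord r (fun ξ : X => if a (Function.update W r ξ) ≠ a W then (1 : ℝ) else 0)
    rw [← cnt_sum, ← cnt_sum] at e2
    rw [← cnt_sum]
    field_simp
    linarith
  have h2 : (∑ W' : R → X, dn a W W') ^ 2 ≤
      Fintype.card (R → X) * ∑ W' : R → X, dn a W W' ^ 2 := by
    have := sq_sum_le_card_mul_sum_sq (s := (univ : Finset (R → X))) (f := fun W' => dn a W W')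
    rw [card_univ] at this
    exact this
  rw [h1] at h2
  have h3 : (Fintype.card (R → X) : ℝ) * (Fintype.card (R → X) * sens a W ^ 2) ≤
      Fintype.card (R → X) * ∑ W' : R → X, dn a W W' ^ 2 := by
    calc _ = (Fintype.card (R → X) * sens a W) ^ 2 := by ring
      _ ≤ _ := h2
  exact le_of_mul_le_mul_left h3 hN

/-- The point which is composed of two points. -/
def mix (b : R → Bool) (p : (R → X) × (R → X)) : R → X := fun r => if b r then p.2 r else p.1 r

theorem mix_inv (b : R → Bool) :
    Function.Involutive (fun p : (R → X) × (R → X) => (mix b p, mix (fun r => !b r) p)) := by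
  rintro ⟨W, W'⟩
  ext r
  · by_cases h : b r = true <;> simp [mix, h]
  · by_cases h : b r = true <;> simp [mix, h]

theorem mix_update (b : R → Bool) (p : (R → X) × (R → X)) (r : R) :
    mix (Function.update b r (!b r)) p = Function.update (mix b p) r (mix (fun r => !b r) p r) := by
  funext s
  by_cases h : s = r
  · subst h
    simp [mix]
  · simp [mix, h]

theorem dn_mix (a : (R → X) → Bool) (b : R → Bool) (p : (R → X) × (R → X)) :
    dn a (mix b p) (mix (fun r => !b r) p) = (sv (fun b => a (mix b p)) b).card := by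
  unfold dn sv
  simp only [mix_update]

theorem sens_moment (a : (R → X) → Bool) (hX : 0 < Fintype.card X) {Bd : ℝ}
    (h : ∀ p : (R → X) × (R → X), Ex (vp (1 / 2)) (fun b : R → Bool =>
      ((sv (fun b => a (mix b p)) b).card : ℝ) ^ 2) ≤ Bd) :
    ∑ W, sens a W ^ 2 ≤ Fintype.card (R → X) * Bd := by
  have : Nonempty X := Fintype.card_pos_iff.1 hX
  have hN : (0 : ℝ) < Fintype.card (R → X) := by exact_mod_cast Fintype.card_pos
  have h1 : Fintype.card (R → X) * ∑ W, sens a W ^ 2 ≤
      ∑ p : (R → X) × (R → X), dn a p.1 p.2 ^ 2 := by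
    rw [mul_sum, Fintype.sum_prod_type]
    exact sum_le_sum fun W _ => sens_sq a W hX
  have h2 : ∀ b : R → Bool, ∑ p : (R → X) × (R → X), dn a p.1 p.2 ^ 2 =
      ∑ p : (R → X) × (R → X), ((sv (fun b => a (mix b p)) b).card : ℝ) ^ 2 := by
    intro b
    have := Equiv.sum_comp (mix_inv (X := X) b).toPerm (fun p => dn a p.1 p.2 ^ 2)
    rw [← this]
    refine sum_congr rfl fun p _ => ?_
    rw [← dn_mix]
    rfl
  have h3 : ∑ p : (R → X) × (R → X), dn a p.1 p.2 ^ 2 =
      ∑ p : (R → X) × (R → X), Ex (vp (1 / 2)) (fun b : R → Bool =>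
      ((sv (fun b => a (mix b p)) b).card : ℝ) ^ 2) := by
    rw [← Ex_sum, ← Ex_const (I := R) (vp_sum (1 / 2)) (∑ p : (R → X) × (R → X), dn a p.1 p.2 ^ 2)]
    congr 1
    funext b
    exact h2 b
  have h4 : ∑ p : (R → X) × (R → X), dn a p.1 p.2 ^ 2 ≤
      Fintype.card (R → X) * (Fintype.card (R → X) * Bd) := by
    rw [h3]
    refine le_trans (sum_le_sum fun p _ => h p) (le_of_eq ?_)
    rw [sum_const, card_univ, Fintype.card_prod, nsmul_eq_mul]
    push_cast
    ring
  exact le_of_mul_le_mul_left (h1.trans h4) hN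

end resample

end Pool.Agent.V8H16.OW
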