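import Mathlib

/-!
# A hypercontractive inequality

The bits `ξ k` and `ζ k`, `k ∈ ι`, are independent, and `η` arises from `ζ` if a random bit `ζ k` is
replaced by the complement of `ξ k`. If `ι` is large then the pair `(ξ, η)` belongs to a product set
`A × B` with probability at most `(P(A) P(B)) ^ (1 - 1 / q)`. This remains true for sequences of
independent pairs of this kind.
-/

set_option autoImplicit false
set_option linter.unusedSectionVars false

open Finset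

namespace Pool.Agent.V8H16.OW

/-- The sign of a bit. -/
def chi (b : Bool) : ℝ := if b then 1 else -1

theorem chi_not (b : Bool) : chi (!b) = - chi b := by cases b <;> simp [chi]

theorem chi_sq (b : Bool) : chi b * chi b = 1 := by cases b <;> simp [chi]

theorem T_bound {c δ : ℝ} (hδ : 0 ≤ δ) (hc : δ ≤ c) : ∀ r : ℕ,
    ((c + δ) ^ (r + 1) - (c - δ) ^ (r + 1)) / 2 ≤ (r + 1) * δ * (c + δ) ^ r := by
  intro r
  induction r with
  | zero => simp
  | succ r ih =>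
    have h1 : (c - δ) ^ (r + 1) ≤ (c + δ) ^ (r + 1) :=
      pow_le_pow_left₀ (by linarith) (by linarith) _
    have h2 : ((c + δ) ^ (r + 1 + 1) - (c - δ) ^ (r + 1 + 1)) / 2 =
        c * (((c + δ) ^ (r + 1) - (c - δ) ^ (r + 1)) / 2) +
        δ * (((c + δ) ^ (r + 1) + (c - δ) ^ (r + 1)) / 2) := by ring
    have h3 : c * (((c + δ) ^ (r + 1) - (c - δ) ^ (r + 1)) / 2) ≤
        (c + δ) * ((r + 1) * δ * (c + δ) ^ r) := by
      have h4 : 0 ≤ ((c + δ) ^ (r + 1) - (c - δ) ^ (r + 1)) / 2 := by linarith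
      calc c * (((c + δ) ^ (r + 1) - (c - δ) ^ (r + 1)) / 2)
          ≤ (c + δ) * (((c + δ) ^ (r + 1) - (c - δ) ^ (r + 1)) / 2) :=
            mul_le_mul_of_nonneg_right (by linarith) h4
        _ ≤ _ := mul_le_mul_of_nonneg_left ih (by linarith)
    have h5 : δ * (((c + δ) ^ (r + 1) + (c - δ) ^ (r + 1)) / 2) ≤ δ * (c + δ) ^ (r + 1) :=
      mul_le_mul_of_nonneg_left (by linarith) hδ
    rw [h2]
    push_cast
    calc _ ≤ (c + δ) * ((r + 1) * δ * (c + δ) ^ r) + δ * (c + δ) ^ (r + 1) := by linarith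
      _ = _ := by ring

/-- The two-point inequality. -/
theorem two_point (R : ℕ) (A a : ℝ) {D : ℝ} (hD : 1 + R * 2 ^ (R + 1) ≤ D) : ∀ r ≤ R,
    ((A + a) ^ (2 * r) + (A - a) ^ (2 * r)) / 2 ≤ (A ^ 2 + D * a ^ 2) ^ r := by
  set c := A ^ 2 + a ^ 2 with hc
  set δ := 2 * |A * a| with hδ
  have hδ0 : 0 ≤ δ := by positivity
  have hδc : δ ≤ c := by
    rw [hδ, hc, abs_mul, ← sq_abs A, ← sq_abs a]
    nlinarith [sq_nonneg (|A| - |a|)]
  have hδ2 : δ ^ 2 = 4 * A ^ 2 * a ^ 2 := by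
    rw [hδ, mul_pow, sq_abs]
    ring
  have hc0 : 0 ≤ c := by positivity
  have hD1 : 1 ≤ D := by
    have : (0 : ℝ) ≤ R * 2 ^ (R + 1) := by positivity
    linarith
  have hZ : c ≤ A ^ 2 + D * a ^ 2 := by
    rw [hc]
    nlinarith [sq_nonneg a]
  have hsum : ∀ r : ℕ, (A + a) ^ (2 * r) + (A - a) ^ (2 * r) = (c + δ) ^ r + (c - δ) ^ r := by
    intro r
    rw [pow_mul, pow_mul]
    rcases abs_cases (A * a) with ⟨h, _⟩ | ⟨h, _⟩
    · have e1 : (A + a) ^ 2 = c + δ := by rw [hc, hδ, h]; ring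
      have e2 : (A - a) ^ 2 = c - δ := by rw [hc, hδ, h]; ring
      rw [e1, e2]
    · have e1 : (A + a) ^ 2 = c - δ := by rw [hc, hδ, h]; ring
      have e2 : (A - a) ^ 2 = c + δ := by rw [hc, hδ, h]; ring
      rw [e1, e2, add_comm]
  intro r
  induction r with
  | zero => simp
  | succ r ih =>
    intro hr
    have ih' := ih (by omega)
    rw [hsum] at ih' ⊢
    have h1 : ((c + δ) ^ (r + 1) + (c - δ) ^ (r + 1)) / 2 =
        c * (((c + δ) ^ r + (c - δ) ^ r) / 2) + δ * (((c + δ) ^ r - (c - δ) ^ r) / 2) := by ring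
    have hZ0 : 0 ≤ A ^ 2 + D * a ^ 2 := le_trans hc0 hZ
    have h2 : c * (((c + δ) ^ r + (c - δ) ^ r) / 2) ≤ c * (A ^ 2 + D * a ^ 2) ^ r :=
      mul_le_mul_of_nonneg_left ih' hc0
    have h3 : δ * (((c + δ) ^ r - (c - δ) ^ r) / 2) ≤
        (r * 2 ^ (r + 1)) * a ^ 2 * (A ^ 2 + D * a ^ 2) ^ r := by
      cases r with
      | zero => simp
      | succ r =>
        have hT := T_bound hδ0 hδc r
        have hcd : c + δ ≤ 2 * c := by linarith
        calc δ * (((c + δ) ^ (r + 1) - (c - δ) ^ (r + 1)) / 2)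
            ≤ δ * ((r + 1) * δ * (c + δ) ^ r) := mul_le_mul_of_nonneg_left hT hδ0
          _ = (r + 1) * δ ^ 2 * (c + δ) ^ r := by ring
          _ ≤ (r + 1) * δ ^ 2 * (2 * c) ^ r := by gcongr
          _ = (r + 1) * 2 ^ (r + 2) * a ^ 2 * (A ^ 2 * c ^ r) := by
              rw [hδ2, mul_pow]
              ring
          _ ≤ (r + 1) * 2 ^ (r + 2) * a ^ 2 * (c * c ^ r) := by
              apply mul_le_mul_of_nonneg_left _ (by positivity)
              apply mul_le_mul_of_nonneg_right _ (by positivity)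
              rw [hc]
              nlinarith [sq_nonneg a]
          _ ≤ (r + 1) * 2 ^ (r + 2) * a ^ 2 * (A ^ 2 + D * a ^ 2) ^ (r + 1) := by
              apply mul_le_mul_of_nonneg_left _ (by positivity)
              rw [← pow_succ']
              exact pow_le_pow_left₀ hc0 hZ _
          _ = _ := by push_cast; ring
    have h4 : c + r * 2 ^ (r + 1) * a ^ 2 ≤ A ^ 2 + D * a ^ 2 := by
      have h5 : (r : ℝ) * 2 ^ (r + 1) ≤ R * 2 ^ (R + 1) := by
        have h6 : (r : ℝ) ≤ R := by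
          have : r ≤ R := by omega
          exact_mod_cast this
        have h7 : (2 : ℝ) ^ (r + 1) ≤ 2 ^ (R + 1) :=
          pow_le_pow_right₀ (by norm_num) (by omega)
        exact mul_le_mul h6 h7 (by positivity) (by positivity)
      have h8 : (1 + r * 2 ^ (r + 1)) * a ^ 2 ≤ D * a ^ 2 :=
        mul_le_mul_of_nonneg_right (by linarith) (sq_nonneg a)
      rw [hc]
      linarith
    rw [h1, pow_succ']
    calc _ ≤ c * (A ^ 2 + D * a ^ 2) ^ r +
          (r * 2 ^ (r + 1)) * a ^ 2 * (A ^ 2 + D * a ^ 2) ^ r := by linarith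
      _ = (c + r * 2 ^ (r + 1) * a ^ 2) * (A ^ 2 + D * a ^ 2) ^ r := by ring
      _ ≤ _ := mul_le_mul_of_nonneg_right h4 (by positivity)

section moment

variable {ι : Type*} [Fintype ι] [DecidableEq ι]

/-- The bit `k` is flipped. -/
def flipAt (k : ι) (ξ : ι → Bool) : ι → Bool := Function.update ξ k (!ξ k)

theorem flipAt_inv (k : ι) : Function.Involutive (flipAt (ι := ι) k) := by
  intro ξ
  unfold flipAt
  simp

theorem sum_flip (k : ι) (G : (ι → Bool) → ℝ) :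
    ∑ ξ, G ξ = ∑ ξ, (G ξ + G (flipAt k ξ)) / 2 := by
  have h1 : ∑ ξ, G (flipAt k ξ) = ∑ ξ, G ξ :=
    Equiv.sum_comp (flipAt_inv k).toPerm G
  rw [← sum_div, sum_add_distrib, h1]
  ring

/-- The even moments of linear forms of signs. -/
theorem moment (R : ℕ) {D : ℝ} (hD : 1 + R * 2 ^ (R + 1) ≤ D) (a0 : ℝ) (a : ι → ℝ)
    (s : Finset ι) : ∀ r ≤ R,
    ∑ ξ : ι → Bool, (a0 + ∑ k ∈ s, a k * chi (ξ k)) ^ (2 * r) ≤
      2 ^ Fintype.card ι * (a0 ^ 2 + D * ∑ k ∈ s, a k ^ 2) ^ r := by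
  have hD0 : 0 ≤ D := by
    have : (0 : ℝ) ≤ R * 2 ^ (R + 1) := by positivity
    linarith
  induction s using Finset.induction_on with
  | empty =>
    intro r _
    simp only [sum_empty, add_zero, mul_zero, sum_const, card_univ, nsmul_eq_mul]
    rw [Fintype.card_fun, Fintype.card_bool, pow_mul]
    push_cast
    exact le_rfl
  | insert k s hk ih =>
    intro r hr
    set L : (ι → Bool) → ℝ := fun ξ => a0 + ∑ k ∈ s, a k * chi (ξ k) with hL
    have hLflip : ∀ ξ, L (flipAt k ξ) = L ξ := by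
      intro ξ
      simp only [hL]
      congr 1
      apply sum_congr rfl
      intro j hj
      have : j ≠ k := fun h => hk (h ▸ hj)
      rw [flipAt, Function.update_of_ne this]
    have e1 : ∀ ξ, a0 + ∑ j ∈ insert k s, a j * chi (ξ j) = L ξ + a k * chi (ξ k) := by
      intro ξ
      rw [sum_insert hk]
      simp only [hL]
      ring
    simp only [e1]
    rw [sum_flip k]
    have e2 : ∀ ξ, ((L ξ + a k * chi (ξ k)) ^ (2 * r) +
        (L (flipAt k ξ) + a k * chi (flipAt k ξ k)) ^ (2 * r)) / 2 ≤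
        (L ξ ^ 2 + D * a k ^ 2) ^ r := by
      intro ξ
      have h1 : chi (flipAt k ξ k) = - chi (ξ k) := by
        rw [flipAt, Function.update_self, chi_not]
      rw [hLflip, h1]
      have h2 := two_point R (L ξ) (a k * chi (ξ k)) hD r hr
      have h3 : (a k * chi (ξ k)) ^ 2 = a k ^ 2 := by
        rw [mul_pow, pow_two (chi _), chi_sq, mul_one]
      rw [h3] at h2
      have h4 : L ξ + a k * -chi (ξ k) = L ξ - a k * chi (ξ k) := by ring
      rw [h4]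
      exact h2
    refine le_trans (sum_le_sum fun ξ _ => e2 ξ) ?_
    have e3 : ∀ ξ, (L ξ ^ 2 + D * a k ^ 2) ^ r =
        ∑ i ∈ range (r + 1), (L ξ) ^ (2 * i) * ((D * a k ^ 2) ^ (r - i) * (r.choose i)) := by
      intro ξ
      rw [add_pow]
      apply sum_congr rfl
      intro i _
      rw [← pow_mul]
      ring
    rw [sum_congr rfl fun ξ _ => e3 ξ, sum_comm]
    have e4 : ∀ i ∈ range (r + 1), ∑ ξ : ι → Bool,
        (L ξ) ^ (2 * i) * ((D * a k ^ 2) ^ (r - i) * (r.choose i)) ≤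
        2 ^ Fintype.card ι * ((a0 ^ 2 + D * ∑ j ∈ s, a j ^ 2) ^ i *
          (D * a k ^ 2) ^ (r - i) * (r.choose i)) := by
      intro i hi
      rw [← sum_mul]
      have h1 := ih i (by have := mem_range.1 hi; omega)
      have h2 : 0 ≤ (D * a k ^ 2) ^ (r - i) * (r.choose i : ℝ) := by positivity
      calc _ ≤ (2 ^ Fintype.card ι * (a0 ^ 2 + D * ∑ j ∈ s, a j ^ 2) ^ i) *
            ((D * a k ^ 2) ^ (r - i) * (r.choose i : ℝ)) := mul_le_mul_of_nonneg_right h1 h2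
        _ = _ := by ring
    refine le_trans (sum_le_sum e4) ?_
    rw [← mul_sum, ← add_pow, sum_insert hk]
    apply le_of_eq
    congr 2
    ring

/-- The sum of `g` over the assignments in which the bit `k` is set to `e`. -/
theorem sum_update (k : ι) (e : Bool) (g : (ι → Bool) → ℝ) :
    ∑ ζ : ι → Bool, g (Function.update ζ k e) = ∑ ζ, g ζ * (1 + chi e * chi (ζ k)) := by
  rw [sum_flip k, sum_flip k (fun ζ => g ζ * (1 + chi e * chi (ζ k)))]
  apply sum_congr rfl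
  intro ζ _
  have h1 : Function.update (flipAt k ζ) k e = Function.update ζ k e := by
    unfold flipAt
    simp
  have h2 : chi (flipAt k ζ k) = - chi (ζ k) := by
    rw [flipAt, Function.update_self, chi_not]
  rw [h1, h2]
  by_cases h : ζ k = e
  · have h3 : Function.update ζ k e = ζ := by
      rw [← h]
      exact Function.update_eq_self k ζ
    have h4 : chi e * chi (ζ k) = 1 := by rw [h, chi_sq]
    have h5 : chi e * -chi (ζ k) = -1 := by rw [mul_neg, h4]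
    rw [h3, h4, h5]
    ring
  · have h0 : (!ζ k) = e := by
      cases h1 : ζ k <;> cases h2 : e <;> simp_all
    have h3 : flipAt k ζ = Function.update ζ k e := by
      unfold flipAt
      rw [h0]
    have h4 : chi e * chi (ζ k) = -1 := by
      rw [← h0, chi_not, neg_mul, chi_sq]
    have h5 : chi e * -chi (ζ k) = 1 := by rw [mul_neg, h4, neg_neg]
    rw [h3, h4, h5]
    ring

/-- The second part of the pair. -/
def snd1 (γ : ι × (ι → Bool) × (ι → Bool)) : ι → Bool :=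
  Function.update γ.2.2 γ.1 (!γ.2.1 γ.1)

theorem sum_pair (f g : (ι → Bool) → ℝ) :
    ∑ γ : ι × (ι → Bool) × (ι → Bool), f γ.2.1 * g (snd1 γ) =
      Fintype.card ι * ((∑ ξ, f ξ) * ∑ ξ, g ξ) -
        ∑ k, (∑ ξ, f ξ * chi (ξ k)) * ∑ ξ, g ξ * chi (ξ k) := by
  rw [Fintype.sum_prod_type]
  have h1 : ∀ k : ι, ∑ p : (ι → Bool) × (ι → Bool), f p.1 * g (snd1 (k, p)) =
      (∑ ξ, f ξ) * (∑ ξ, g ξ) - (∑ ξ, f ξ * chi (ξ k)) * ∑ ξ, g ξ * chi (ξ k) := by
    intro k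
    rw [Fintype.sum_prod_type]
    have h2 : ∀ ξ : ι → Bool, ∑ ζ : ι → Bool, f ξ * g (snd1 (k, ξ, ζ)) =
        f ξ * (∑ ζ, g ζ) - (f ξ * chi (ξ k)) * ∑ ζ, g ζ * chi (ζ k) := by
      intro ξ
      rw [← mul_sum]
      have h3 := sum_update k (!ξ k) g
      have h4 : ∑ ζ : ι → Bool, g (snd1 (k, ξ, ζ)) = ∑ ζ : ι → Bool, g (Function.update ζ k (!ξ k)) :=
        rfl
      rw [h4, h3, chi_not]
      have h5 : ∀ ζ : ι → Bool, g ζ * (1 + -chi (ξ k) * chi (ζ k)) =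
          g ζ - chi (ξ k) * (g ζ * chi (ζ k)) := fun ζ => by ring
      rw [sum_congr rfl fun ζ _ => h5 ζ, sum_sub_distrib, ← mul_sum]
      ring
    rw [sum_congr rfl fun ξ _ => h2 ξ, sum_sub_distrib, ← sum_mul, ← sum_mul]
  rw [sum_congr rfl fun k _ => h1 k, sum_sub_distrib, sum_const, card_univ, nsmul_eq_mul]

/-- The hypercontractive inequality for one function. -/
theorem level_one (R : ℕ) (hR : 1 ≤ R) (hι : 1 + (R : ℝ) * 2 ^ (R + 1) ≤ Fintype.card ι) {p : ℝ}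
    (hpq : p.HolderConjugate (2 * R)) (f : (ι → Bool) → ℝ) (hf : ∀ ξ, 0 ≤ f ξ) :
    √(Fintype.card ι * (∑ ξ, f ξ) ^ 2 + ∑ k, (∑ ξ, f ξ * chi (ξ k)) ^ 2) ≤
      √(Fintype.card ι) * ((2 : ℝ) ^ Fintype.card ι) ^ (1 / (2 * R : ℝ)) *
        (∑ ξ, f ξ ^ p) ^ (1 / p) := by
  set M : ℝ := (Fintype.card ι : ℝ) with hM
  set F0 := ∑ ξ, f ξ with hF0
  set Fk : ι → ℝ := fun k => ∑ ξ, f ξ * chi (ξ k) with hFk
  set Qf := M * F0 ^ 2 + ∑ k, Fk k ^ 2 with hQf
  have hM1 : 1 ≤ M := by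
    have : (0 : ℝ) ≤ R * 2 ^ (R + 1) := by positivity
    linarith
  have hQ0 : 0 ≤ Qf := by
    have : 0 ≤ ∑ k, Fk k ^ 2 := sum_nonneg fun k _ => sq_nonneg _
    positivity
  set h : (ι → Bool) → ℝ := fun ξ => M * F0 + ∑ k, Fk k * chi (ξ k) with hh
  have e1 : ∑ ξ, f ξ * h ξ = Qf := by
    have e2 : ∀ ξ, f ξ * h ξ = M * F0 * f ξ + ∑ k, Fk k * (f ξ * chi (ξ k)) := by
      intro ξ
      simp only [hh]
      rw [mul_add, mul_sum univ (fun k => Fk k * chi (ξ k)) (f ξ)]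
      congr 1
      · ring
      · exact sum_congr rfl fun k _ => by ring
    rw [sum_congr rfl fun ξ _ => e2 ξ, sum_add_distrib, sum_comm, ← mul_sum]
    simp only [← mul_sum]
    rw [hQf, ← hF0]
    congr 1
    · ring
    · exact sum_congr rfl fun k _ => by rw [pow_two]
  have hR0 : (0 : ℝ) < 2 * R := by
    have : (1 : ℝ) ≤ R := by exact_mod_cast hR
    linarith
  have hmom : ∑ ξ, |h ξ| ^ (2 * R : ℝ) ≤ (2 : ℝ) ^ Fintype.card ι * (M * Qf) ^ R := by
    have e3 : ∀ ξ, |h ξ| ^ (2 * R : ℝ) = h ξ ^ (2 * R) := by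
      intro ξ
      have : (2 * R : ℝ) = ((2 * R : ℕ) : ℝ) := by push_cast; ring
      rw [this, Real.rpow_natCast, pow_mul, sq_abs, ← pow_mul]
    rw [sum_congr rfl fun ξ _ => e3 ξ]
    refine le_trans (moment R hι (M * F0) Fk univ R le_rfl) ?_
    apply mul_le_mul_of_nonneg_left _ (by positivity)
    apply pow_le_pow_left₀
    · have : 0 ≤ ∑ k, Fk k ^ 2 := sum_nonneg fun k _ => sq_nonneg _
      positivity
    · apply le_of_eq
      rw [hQf]
      ring
  have hhol := Real.inner_le_Lp_mul_Lq univ f h hpq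
  rw [e1] at hhol
  have hfp : ∑ ξ, |f ξ| ^ p = ∑ ξ, f ξ ^ p :=
    sum_congr rfl fun ξ _ => by rw [abs_of_nonneg (hf ξ)]
  rw [hfp] at hhol
  set NF := (∑ ξ, f ξ ^ p) ^ (1 / p) with hNF
  have hNF0 : 0 ≤ NF := Real.rpow_nonneg (sum_nonneg fun ξ _ => Real.rpow_nonneg (hf ξ) p) _
  have hnorm : (∑ ξ, |h ξ| ^ (2 * R : ℝ)) ^ (1 / (2 * R : ℝ)) ≤
      ((2 : ℝ) ^ Fintype.card ι) ^ (1 / (2 * R : ℝ)) * (√M * √Qf) := by
    have h1 : (∑ ξ, |h ξ| ^ (2 * R : ℝ)) ^ (1 / (2 * R : ℝ)) ≤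
        ((2 : ℝ) ^ Fintype.card ι * (M * Qf) ^ R) ^ (1 / (2 * R : ℝ)) :=
      Real.rpow_le_rpow (sum_nonneg fun ξ _ => Real.rpow_nonneg (abs_nonneg _) _) hmom
        (by positivity)
    refine le_trans h1 (le_of_eq ?_)
    rw [Real.mul_rpow (by positivity) (by positivity), ← Real.sqrt_mul (by positivity)]
    congr 1
    rw [← Real.rpow_natCast, ← Real.rpow_mul (by positivity), Real.sqrt_eq_rpow]
    congr 1
    have : (R : ℝ) ≠ 0 := by
      have : (1 : ℝ) ≤ R := by exact_mod_cast hR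
      linarith
    field_simp
  have hfin : Qf ≤ NF * (((2 : ℝ) ^ Fintype.card ι) ^ (1 / (2 * R : ℝ)) * (√M * √Qf)) :=
    le_trans hhol (mul_le_mul_of_nonneg_left hnorm hNF0)
  rcases hQ0.eq_or_lt with h0 | hpos
  · rw [← h0, Real.sqrt_zero]
    positivity
  · have hs : 0 < √Qf := Real.sqrt_pos.2 hpos
    have h2 : √Qf * √Qf = Qf := Real.mul_self_sqrt hQ0
    have h3 : √Qf * √Qf ≤ (√M * ((2 : ℝ) ^ Fintype.card ι) ^ (1 / (2 * R : ℝ)) * NF) * √Qf := by
      rw [h2]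
      calc Qf ≤ _ := hfin
        _ = _ := by ring
    exact le_of_mul_le_mul_right h3 hs

theorem block (R : ℕ) (hR : 1 ≤ R) (hι : 1 + (R : ℝ) * 2 ^ (R + 1) ≤ Fintype.card ι) {p : ℝ}
    (hpq : p.HolderConjugate (2 * R)) (f g : (ι → Bool) → ℝ) (hf : ∀ ξ, 0 ≤ f ξ)
    (hg : ∀ ξ, 0 ≤ g ξ) :
    ∑ γ : ι × (ι → Bool) × (ι → Bool), f γ.2.1 * g (snd1 γ) ≤
      (Fintype.card ι * (((2 : ℝ) ^ Fintype.card ι) ^ (1 / (2 * R : ℝ))) ^ 2) *
        (∑ ξ, f ξ ^ p) ^ (1 / p) * (∑ ξ, g ξ ^ p) ^ (1 / p) := by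
  rw [sum_pair]
  set M : ℝ := (Fintype.card ι : ℝ) with hM
  set F0 := ∑ ξ, f ξ with hF0
  set G0 := ∑ ξ, g ξ with hG0
  set Fk : ι → ℝ := fun k => ∑ ξ, f ξ * chi (ξ k) with hFk
  set Gk : ι → ℝ := fun k => ∑ ξ, g ξ * chi (ξ k) with hGk
  have hM0 : 0 ≤ M := Nat.cast_nonneg _
  have hA : 0 ≤ ∑ k, Fk k ^ 2 := sum_nonneg fun k _ => sq_nonneg _
  have hB : 0 ≤ ∑ k, Gk k ^ 2 := sum_nonneg fun k _ => sq_nonneg _
  have hcs : M * (F0 * G0) - ∑ k, Fk k * Gk k ≤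
      √(M * F0 ^ 2 + ∑ k, Fk k ^ 2) * √(M * G0 ^ 2 + ∑ k, Gk k ^ 2) := by
    rw [← Real.sqrt_mul (by positivity)]
    apply Real.le_sqrt_of_sq_le
    have h1 : (∑ k, Fk k * Gk k) ^ 2 ≤ (∑ k, Fk k ^ 2) * ∑ k, Gk k ^ 2 :=
      sum_mul_sq_le_sq_mul_sq _ _ _
    have h2 : -(2 * (F0 * G0) * ∑ k, Fk k * Gk k) ≤
        F0 ^ 2 * (∑ k, Gk k ^ 2) + G0 ^ 2 * ∑ k, Fk k ^ 2 := by
      have h3 : (∑ k, (F0 * Gk k + G0 * Fk k) ^ 2) =
          F0 ^ 2 * (∑ k, Gk k ^ 2) + G0 ^ 2 * (∑ k, Fk k ^ 2) +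
            2 * (F0 * G0) * ∑ k, Fk k * Gk k := by
        rw [mul_sum, mul_sum, mul_sum, ← sum_add_distrib, ← sum_add_distrib]
        exact sum_congr rfl fun k _ => by ring
      have h4 : 0 ≤ ∑ k, (F0 * Gk k + G0 * Fk k) ^ 2 := sum_nonneg fun k _ => sq_nonneg _
      linarith
    have h5 := mul_le_mul_of_nonneg_left h2 hM0
    nlinarith [h1, h5]
  have h1 := level_one R hR hι hpq f hf
  have h2 := level_one R hR hι hpq g hg
  refine le_trans hcs (le_trans (mul_le_mul h1 h2 (Real.sqrt_nonneg _) ?_) (le_of_eq ?_))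
  · have : 0 ≤ (∑ ξ, f ξ ^ p) ^ (1 / p) :=
      Real.rpow_nonneg (sum_nonneg fun ξ _ => Real.rpow_nonneg (hf ξ) p) _
    positivity
  · have : √M * √M = M := Real.mul_self_sqrt hM0
    calc _ = (√M * √M) * (((2 : ℝ) ^ Fintype.card ι) ^ (1 / (2 * R : ℝ))) ^ 2 *
        (∑ ξ, f ξ ^ p) ^ (1 / p) * (∑ ξ, g ξ ^ p) ^ (1 / p) := by ring
      _ = _ := by rw [this]

end moment

theorem sum_cons {β : Type*} [Fintype β] {d : ℕ} (F : (Fin (d + 1) → β) → ℝ) :
    ∑ γ, F γ = ∑ b : β, ∑ γ : Fin d → β, F (Fin.cons b γ) := by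
  rw [← Fintype.sum_prod_type']
  exact (Equiv.sum_comp (Fin.consEquiv fun _ => β) F).symm

/-- The inequality for sequences of independent pairs. -/
theorem tensor {α Γ : Type*} [Fintype α] [Fintype Γ] (x y : Γ → α) {c p : ℝ} (hp : 0 < p)
    (hc : 0 ≤ c)
    (h : ∀ f g : α → ℝ, (∀ a, 0 ≤ f a) → (∀ a, 0 ≤ g a) → ∑ γ, f (x γ) * g (y γ) ≤
      c * (∑ a, f a ^ p) ^ (1 / p) * (∑ a, g a ^ p) ^ (1 / p)) :
    ∀ (d : ℕ) (f g : (Fin d → α) → ℝ), (∀ a, 0 ≤ f a) → (∀ a, 0 ≤ g a) →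
      ∑ γ : Fin d → Γ, f (fun t => x (γ t)) * g (fun t => y (γ t)) ≤
      c ^ d * (∑ a, f a ^ p) ^ (1 / p) * (∑ a, g a ^ p) ^ (1 / p) := by
  intro d
  induction d with
  | zero =>
    intro f g hf hg
    simp only [Finset.univ_unique, sum_singleton, pow_zero, one_mul]
    rw [← Real.rpow_mul (hf _), ← Real.rpow_mul (hg _), mul_one_div_cancel hp.ne', Real.rpow_one,
      Real.rpow_one]
    apply le_of_eq
    congr 2 <;> exact Subsingleton.elim _ _
  | succ d ih =>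
    intro f g hf hg
    rw [sum_cons, sum_cons, sum_cons]
    set F : α → ℝ := fun a => (∑ a' : Fin d → α, f (Fin.cons a a') ^ p) ^ (1 / p) with hF
    set G : α → ℝ := fun a => (∑ a' : Fin d → α, g (Fin.cons a a') ^ p) ^ (1 / p) with hG
    have hF0 : ∀ a, 0 ≤ F a := fun a =>
      Real.rpow_nonneg (sum_nonneg fun a' _ => Real.rpow_nonneg (hf _) p) _
    have hG0 : ∀ a, 0 ≤ G a := fun a =>
      Real.rpow_nonneg (sum_nonneg fun a' _ => Real.rpow_nonneg (hg _) p) _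
    have hFp : ∀ a, F a ^ p = ∑ a' : Fin d → α, f (Fin.cons a a') ^ p := by
      intro a
      rw [hF, ← Real.rpow_mul (sum_nonneg fun a' _ => Real.rpow_nonneg (hf _) p),
        one_div_mul_cancel hp.ne', Real.rpow_one]
    have hGp : ∀ a, G a ^ p = ∑ a' : Fin d → α, g (Fin.cons a a') ^ p := by
      intro a
      rw [hG, ← Real.rpow_mul (sum_nonneg fun a' _ => Real.rpow_nonneg (hg _) p),
        one_div_mul_cancel hp.ne', Real.rpow_one]
    have hcons : ∀ (u : Γ → α) (γ0 : Γ) (γ : Fin d → Γ),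
        (fun t => u ((Fin.cons γ0 γ : Fin (d + 1) → Γ) t)) =
        (Fin.cons (u γ0) (fun t => u (γ t)) : Fin (d + 1) → α) := by
      intro u γ0 γ
      funext t
      refine Fin.cases ?_ (fun i => ?_) t <;> simp
    have h1 : ∀ γ0 : Γ, ∑ γ : Fin d → Γ, f (fun t => x ((Fin.cons γ0 γ : Fin (d + 1) → Γ) t)) *
        g (fun t => y ((Fin.cons γ0 γ : Fin (d + 1) → Γ) t)) ≤ c ^ d * (F (x γ0) * G (y γ0)) := by
      intro γ0
      simp only [hcons]
      refine le_trans (ih (fun a' => f (Fin.cons (x γ0) a')) (fun a' => g (Fin.cons (y γ0) a'))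
        (fun _ => hf _) (fun _ => hg _)) (le_of_eq ?_)
      rw [mul_assoc]
    refine le_trans (sum_le_sum fun γ0 _ => h1 γ0) ?_
    rw [← mul_sum]
    have h2 := h F G hF0 hG0
    simp only [hFp, hGp] at h2
    calc c ^ d * ∑ γ, F (x γ) * G (y γ) ≤ c ^ d * (c *
        (∑ a, ∑ a' : Fin d → α, f (Fin.cons a a') ^ p) ^ (1 / p) *
        (∑ a, ∑ a' : Fin d → α, g (Fin.cons a a') ^ p) ^ (1 / p)) :=
          mul_le_mul_of_nonneg_left h2 (by positivity)
      _ = _ := by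
          rw [pow_succ]
          ring

end Pool.Agent.V8H16.OW
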