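import Mathlib
import Pool.Agent.V8H16.OW.Hyper
import Pool.Agent.V8H16.OV.Tree

/-!
# Product sets have small probability
-/

set_option autoImplicit false
set_option linter.unusedSectionVars false

open Finset Classical

namespace Pool.Agent.V8H16.OW

open Pool.Agent.V8H16.OV (cnt)

section small

variable {ι : Type*} [Fintype ι] [DecidableEq ι] {d : ℕ}

/-- The samples: `d` independent blocks. -/
abbrev Gam (d : ℕ) (ι : Type*) := Fin d → ι × (ι → Bool) × (ι → Bool)

/-- The first part of the pair. -/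
def xs (γ : Gam d ι) : Fin d → ι → Bool := fun t => (γ t).2.1

/-- The second part of the pair. -/
def ys (γ : Gam d ι) : Fin d → ι → Bool := fun t => snd1 (γ t)

theorem cast_cnt {α : Type*} [Fintype α] (P : α → Prop) :
    (cnt P : ℝ) = ∑ a, if P a then (1 : ℝ) else 0 := by
  unfold cnt
  rw [card_filter]
  push_cast
  rfl

theorem sum_ind_rpow {α : Type*} [Fintype α] (P : α → Prop) {p : ℝ} (hp : 0 < p) :
    ∑ a, (if P a then (1 : ℝ) else 0) ^ p = cnt P := by
  rw [cast_cnt]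
  apply sum_congr rfl
  intro a _
  split_ifs
  · exact Real.one_rpow p
  · exact Real.zero_rpow hp.ne'

theorem card_blocks : (Fintype.card (Fin d → ι → Bool) : ℝ) = (2 ^ Fintype.card ι) ^ d := by
  rw [Fintype.card_fun, Fintype.card_fun, Fintype.card_bool, Fintype.card_fin]
  push_cast
  rfl

theorem card_gam : (Fintype.card (Gam d ι) : ℝ) =
    (Fintype.card ι * (2 ^ Fintype.card ι) ^ 2) ^ d := by
  rw [Fintype.card_fun, Fintype.card_prod, Fintype.card_prod, Fintype.card_fun, Fintype.card_bool,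
    Fintype.card_fin]
  push_cast
  ring

theorem small_set (R : ℕ) (hR : 1 ≤ R) (hι : 1 + (R : ℝ) * 2 ^ (R + 1) ≤ Fintype.card ι)
    (A B : (Fin d → ι → Bool) → Prop) :
    (cnt (fun γ : Gam d ι => A (xs γ) ∧ B (ys γ)) : ℝ) ≤ Fintype.card (Gam d ι) *
      (((cnt A : ℝ) / Fintype.card (Fin d → ι → Bool)) ^ (1 - 1 / (2 * R : ℝ)) *
        ((cnt B : ℝ) / Fintype.card (Fin d → ι → Bool)) ^ (1 - 1 / (2 * R : ℝ))) := by
  have hR1 : (1 : ℝ) ≤ R := by exact_mod_cast hR
  have hq : (1 : ℝ) < 2 * R := by linarith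
  have hqp := Real.HolderConjugate.conjExponent hq
  set p := Real.conjExponent (2 * R : ℝ) with hp
  have hpq : p.HolderConjugate (2 * R) := hqp.symm
  have hp0 : 0 < p := hpq.pos
  have hpinv : 1 / p = 1 - 1 / (2 * R : ℝ) := by
    have := hpq.inv_add_inv_eq_one
    rw [one_div, one_div]
    linarith
  have h1 := tensor (fun γ : ι × (ι → Bool) × (ι → Bool) => γ.2.1) (fun γ => snd1 γ) hp0
    (c := Fintype.card ι * (((2 : ℝ) ^ Fintype.card ι) ^ (1 / (2 * R : ℝ))) ^ 2) (by positivity)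
    (fun f g hf hg => block R hR hι hpq f g hf hg) d
    (fun a => if A a then (1 : ℝ) else 0) (fun a => if B a then (1 : ℝ) else 0)
    (fun a => by split_ifs <;> norm_num) (fun a => by split_ifs <;> norm_num)
  rw [sum_ind_rpow A hp0, sum_ind_rpow B hp0] at h1
  have h2 : (cnt (fun γ : Gam d ι => A (xs γ) ∧ B (ys γ)) : ℝ) =
      ∑ γ : Gam d ι, (if A (fun t => (γ t).2.1) then (1 : ℝ) else 0) *
        (if B (fun t => snd1 (γ t)) then (1 : ℝ) else 0) := by
    rw [cast_cnt]
    apply sum_congr rfl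
    intro γ _
    have e1 : xs γ = fun t => (γ t).2.1 := rfl
    have e2 : ys γ = fun t => snd1 (γ t) := rfl
    rw [e1, e2]
    by_cases hA : A (fun t => (γ t).2.1) <;> by_cases hB : B (fun t => snd1 (γ t)) <;> simp [hA, hB]
  rw [h2]
  refine le_trans h1 (le_of_eq ?_)
  rw [hpinv, card_gam, card_blocks]
  set N : ℝ := (2 : ℝ) ^ Fintype.card ι with hN
  have hN0 : 0 < N := by positivity
  set θ : ℝ := 1 - 1 / (2 * R : ℝ) with hθ
  have hA0 : (0 : ℝ) ≤ cnt A := Nat.cast_nonneg _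
  have hB0 : (0 : ℝ) ≤ cnt B := Nat.cast_nonneg _
  rw [Real.div_rpow hA0 (by positivity), Real.div_rpow hB0 (by positivity)]
  have e3 : (N ^ d) ^ θ = (N ^ θ) ^ d := by
    rw [← Real.rpow_natCast, ← Real.rpow_mul hN0.le, mul_comm, Real.rpow_mul hN0.le,
      Real.rpow_natCast]
  have e4 : N ^ (1 / (2 * R : ℝ)) * N ^ θ = N := by
    rw [← Real.rpow_add hN0, hθ]
    have : 1 / (2 * (R : ℝ)) + (1 - 1 / (2 * R)) = 1 := by ring
    rw [this, Real.rpow_one]
  have e5 : (N ^ (1 / (2 * R : ℝ))) = N / N ^ θ := by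
    rw [eq_div_iff (by positivity)]
    exact e4
  rw [e3, e5, div_pow, mul_pow, mul_pow, ← pow_mul, ← pow_mul, div_pow, ← pow_mul, ← pow_mul]
  have hNθ : N ^ θ ≠ 0 := by positivity
  field_simp
  ring

end small

end Pool.Agent.V8H16.OW
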