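import Mathlib
import Pool.Agent.V8H16.OW.SmallSet
import Pool.Agent.V8H16.OW.Joint
import Pool.Agent.V8H16.OW.Resample

/-!
# The number of the pairs of rows with a joint dependence
-/

set_option autoImplicit false
set_option linter.unusedSectionVars false

open Finset Classical

namespace Pool.Agent.V8H16.OW

open Pool.Agent.V8H16.OV (cnt cnt_or cnt_mono cnt_congr)

/-- The indicator of a property. -/
noncomputable def ind (P : Prop) : ℝ := if P then 1 else 0

theorem ind_nonneg (P : Prop) : 0 ≤ ind P := by unfold ind; split_ifs <;> norm_num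

theorem ind_le_one (P : Prop) : ind P ≤ 1 := by unfold ind; split_ifs <;> norm_num

theorem ind_mono {P Q : Prop} (h : P → Q) : ind P ≤ ind Q := by
  unfold ind
  by_cases hP : P
  · rw [if_pos hP, if_pos (h hP)]
  · rw [if_neg hP]
    split_ifs <;> norm_num

theorem ind_and (P Q : Prop) : ind (P ∧ Q) = ind P * ind Q := by
  unfold ind
  by_cases hP : P <;> by_cases hQ : Q <;> simp [hP, hQ]

theorem ind_or {P Q Z : Prop} (h : P → Q ∨ Z) : ind P ≤ ind Q + ind Z := by
  by_cases hP : P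
  · rcases h hP with h | h
    · have := ind_nonneg Z
      have := ind_le_one P
      have : ind Q = 1 := if_pos h
      linarith
    · have := ind_nonneg Q
      have := ind_le_one P
      have : ind Z = 1 := if_pos h
      linarith
  · have h1 : ind P = 0 := if_neg hP
    have := ind_nonneg Q
    have := ind_nonneg Z
    linarith

theorem cnt_ind {α : Type*} [Fintype α] (P : α → Prop) : (cnt P : ℝ) = ∑ a, ind (P a) := by
  rw [cnt_sum]
  rfl

theorem pow_avg {x θ N : ℝ} (hx : 0 ≤ x) (h0 : 0 < θ) (h1 : θ ≤ 1) (hN : 0 < N) :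
    x ^ θ ≤ N ^ (1 - θ) * (x + 1 / N) := by
  have hN1 : 0 ≤ N ^ (1 - θ) := Real.rpow_nonneg hN.le _
  rcases le_total (1 / N) x with h | h
  · have hx0 : 0 < x := lt_of_lt_of_le (by positivity) h
    have e1 : x ^ θ = x * (1 / x) ^ (1 - θ) := by
      rw [Real.div_rpow zero_le_one hx0.le, Real.one_rpow, Real.rpow_sub hx0, Real.rpow_one]
      field_simp
    have e2 : (1 / x) ^ (1 - θ) ≤ N ^ (1 - θ) := by
      apply Real.rpow_le_rpow (by positivity) _ (by linarith)
      rw [div_le_iff₀ hx0]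
      rw [div_le_iff₀ hN] at h
      linarith
    rw [e1]
    calc x * (1 / x) ^ (1 - θ) ≤ x * N ^ (1 - θ) := mul_le_mul_of_nonneg_left e2 hx
      _ = N ^ (1 - θ) * x := by ring
      _ ≤ _ := mul_le_mul_of_nonneg_left (by
          have : 0 ≤ 1 / N := by positivity
          linarith) hN1
  · have e1 : x ^ θ ≤ (1 / N) ^ θ := Real.rpow_le_rpow hx h h0.le
    have e2 : (1 / N) ^ θ = N ^ (1 - θ) * (1 / N) := by
      rw [Real.div_rpow zero_le_one hN.le, Real.one_rpow, Real.rpow_sub hN, Real.rpow_one]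
      field_simp
    rw [e2] at e1
    refine e1.trans (mul_le_mul_of_nonneg_left ?_ hN1)
    linarith

section transfer

variable {ι : Type*} [Fintype ι] [DecidableEq ι] {d : ℕ}

theorem transfer {R : ℕ} (hR : 1 ≤ R) (hι : 1 + (R : ℝ) * 2 ^ (R + 1) ≤ Fintype.card ι) {n : ℕ}
    (hn : 1 ≤ n) (P Q : Fin n → Fin n → (Fin d → ι → Bool) → Prop) :
    ∑ i, ∑ j, ∑ γ : Gam d ι, ind (P i j (xs γ) ∧ Q i j (ys γ)) ≤
      Fintype.card (Gam d ι) * ((n : ℝ) ^ (1 / (R : ℝ)) *
        (1 + ∑ i, ∑ j, ((cnt (P i j) : ℝ) / Fintype.card (Fin d → ι → Bool)) *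
          ((cnt (Q i j) : ℝ) / Fintype.card (Fin d → ι → Bool)))) := by
  have hn0 : (0 : ℝ) < n := by exact_mod_cast hn
  have hR1 : (1 : ℝ) ≤ R := by exact_mod_cast hR
  set θ : ℝ := 1 - 1 / (2 * R : ℝ) with hθ
  have hθ0 : 0 < θ := by
    have : 1 / (2 * R : ℝ) ≤ 1 / 2 := one_div_le_one_div_of_le (by norm_num) (by linarith)
    linarith
  have hθ1 : θ ≤ 1 := by
    have : 0 ≤ 1 / (2 * R : ℝ) := by positivity
    linarith
  have hpow : ((n : ℝ) ^ 2) ^ (1 - θ) = (n : ℝ) ^ (1 / (R : ℝ)) := by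
    rw [← Real.rpow_natCast, ← Real.rpow_mul hn0.le]
    congr 1
    rw [hθ]
    push_cast
    field_simp
    ring
  have key : ∀ i j : Fin n, ∑ γ : Gam d ι, ind (P i j (xs γ) ∧ Q i j (ys γ)) ≤
      Fintype.card (Gam d ι) * ((n : ℝ) ^ (1 / (R : ℝ)) *
        (((cnt (P i j) : ℝ) / Fintype.card (Fin d → ι → Bool)) *
          ((cnt (Q i j) : ℝ) / Fintype.card (Fin d → ι → Bool)) + 1 / (n : ℝ) ^ 2)) := by
    intro i j
    rw [← cnt_ind]
    refine le_trans (small_set R hR hι (P i j) (Q i j)) ?_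
    apply mul_le_mul_of_nonneg_left _ (Nat.cast_nonneg _)
    rw [← Real.mul_rpow (by positivity) (by positivity), ← hpow]
    exact pow_avg (by positivity) hθ0 hθ1 (by positivity)
  refine le_trans (sum_le_sum fun i _ => sum_le_sum fun j _ => key i j) (le_of_eq ?_)
  simp only [← mul_sum, sum_add_distrib]
  congr 2
  rw [add_comm]
  congr 1
  simp only [sum_const, card_univ, Fintype.card_fin, nsmul_eq_mul]
  field_simp

variable {K : Type*} [Fintype K] [DecidableEq K] {n : ℕ}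

/-- The sensitivity in some of the directions. -/
theorem sum_le_sens {X : Type*} [Fintype X] (a : (K → X) → Bool) (W : K → X) {r : Fin n → K}
    (hr : Function.Injective r) :
    ∑ i, (cnt (fun ξ : X => a (Function.update W (r i) ξ) ≠ a W) : ℝ) / Fintype.card X ≤
      sens a W := by
  unfold sens
  rw [← sum_image (g := r) (f := fun t => (cnt (fun ξ : X =>
    a (Function.update W t ξ) ≠ a W) : ℝ) / Fintype.card X) (fun x _ y _ h => hr h)]
  exact sum_le_sum_of_subset_of_nonneg (subset_univ _) fun _ _ _ => by positivity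

theorem sum_prod_sens {X : Type*} [Fintype X] (a b : (K → X) → Bool) (W : K → X)
    {r s : Fin n → K} (hr : Function.Injective r) (hs : Function.Injective s) :
    ∑ i, ∑ j, ((cnt (fun ξ : X => a (Function.update W (r i) ξ) ≠ a W) : ℝ) / Fintype.card X) *
      ((cnt (fun ξ : X => b (Function.update W (s j) ξ) ≠ b W) : ℝ) / Fintype.card X) ≤
      (sens a W ^ 2 + sens b W ^ 2) / 2 := by
  rw [← sum_mul_sum]
  have h1 := sum_le_sens a W hr
  have h2 := sum_le_sens b W hs
  have h3 : ∑ i, (cnt (fun ξ : X => a (Function.update W (r i) ξ) ≠ a W) : ℝ) /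
      Fintype.card X * 1 = ∑ i, (cnt (fun ξ : X => a (Function.update W (r i) ξ) ≠ a W) : ℝ) /
      Fintype.card X := by simp
  have h0 : 0 ≤ sens a W := by unfold sens; positivity
  calc _ ≤ sens a W * sens b W :=
        mul_le_mul h1 h2 (sum_nonneg fun _ _ => by positivity) h0
    _ ≤ _ := by nlinarith [sq_nonneg (sens a W - sens b W)]

/-- Two functions which depend on different rows. -/
theorem pair_bound {R : ℕ} (hR : 1 ≤ R) (hι : 1 + (R : ℝ) * 2 ^ (R + 1) ≤ Fintype.card ι)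
    (hn : 1 ≤ n) {r s : Fin n → K} (hr : Function.Injective r) (hs : Function.Injective s)
    (hrs : ∀ i j, r i ≠ s j) (a b : (K → Fin d → ι → Bool) → Bool) :
    ∑ W, ∑ i, ∑ j, ∑ γ : Gam d ι, ind (Pair
        (fun e e' => a (sq W (r i) (s j) (xs γ) (ys γ) e e'))
        (fun e e' => b (sq W (r i) (s j) (xs γ) (ys γ) e e'))) ≤
      Fintype.card (Gam d ι) * ((n : ℝ) ^ (1 / (R : ℝ)) *
        (2 * Fintype.card (K → Fin d → ι → Bool) + ∑ W, sens a W ^ 2 + ∑ W, sens b W ^ 2)) := by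
  have key : ∀ W, ∑ i, ∑ j, ∑ γ : Gam d ι, ind (Pair
        (fun e e' => a (sq W (r i) (s j) (xs γ) (ys γ) e e'))
        (fun e e' => b (sq W (r i) (s j) (xs γ) (ys γ) e e'))) ≤
      Fintype.card (Gam d ι) * ((n : ℝ) ^ (1 / (R : ℝ)) *
        (2 + sens a W ^ 2 + sens b W ^ 2)) := by
    intro W
    have h1 := transfer hR hι hn (fun i _ ξ => a (Function.update W (r i) ξ) ≠ a W)
      (fun _ j η => b (Function.update W (s j) η) ≠ b W)
    have h2 := transfer hR hι hn (fun i _ ξ => b (Function.update W (r i) ξ) ≠ b W)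
      (fun _ j η => a (Function.update W (s j) η) ≠ a W)
    have h3 := sum_prod_sens a b W hr hs
    have h4 := sum_prod_sens b a W hr hs
    have h5 : ∑ i, ∑ j, ∑ γ : Gam d ι, ind (Pair
        (fun e e' => a (sq W (r i) (s j) (xs γ) (ys γ) e e'))
        (fun e e' => b (sq W (r i) (s j) (xs γ) (ys γ) e e'))) ≤
        (∑ i, ∑ j, ∑ γ : Gam d ι, ind (a (Function.update W (r i) (xs γ)) ≠ a W ∧
          b (Function.update W (s j) (ys γ)) ≠ b W)) +
        ∑ i, ∑ j, ∑ γ : Gam d ι, ind (b (Function.update W (r i) (xs γ)) ≠ b W ∧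
          a (Function.update W (s j) (ys γ)) ≠ a W) := by
      rw [← sum_add_distrib]
      refine sum_le_sum fun i _ => ?_
      rw [← sum_add_distrib]
      refine sum_le_sum fun j _ => ?_
      rw [← sum_add_distrib]
      refine sum_le_sum fun γ _ => ?_
      apply ind_or
      intro h
      unfold Pair at h
      simp only [sq_ff, sq_tf, sq_ft W (hrs i j)] at h
      rcases h with ⟨h1, h2⟩ | ⟨h1, h2⟩
      · exact Or.inl ⟨h1.symm, h2.symm⟩
      · exact Or.inr ⟨h1.symm, h2.symm⟩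
    refine h5.trans (le_trans (add_le_add h1 h2) ?_)
    rw [← mul_add, ← mul_add]
    apply mul_le_mul_of_nonneg_left _ (Nat.cast_nonneg _)
    apply mul_le_mul_of_nonneg_left _ (by positivity)
    linarith
  refine le_trans (sum_le_sum fun W _ => key W) (le_of_eq ?_)
  rw [← mul_sum, ← mul_sum]
  congr 2
  rw [sum_add_distrib, sum_add_distrib, sum_const, card_univ, nsmul_eq_mul]
  ring

/-- The function of two bits changes in both directions. -/
def Dbl (f : Bool → Bool → Bool) (a b : Bool) : Prop := f a b ≠ f (!a) b ∧ f a b ≠ f a (!b)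

theorem nj_dbl {f : Bool → Bool → Bool} (h : ¬ NJ f) : ∃ a b, Dbl f a b := by
  have key : ∀ x y z w : Bool, ¬ ((x = z ∧ y = w) ∨ (x = y ∧ z = w)) →
      (x ≠ z ∧ x ≠ y) ∨ (y ≠ w ∧ y ≠ x) ∨ (z ≠ x ∧ z ≠ w) ∨ (w ≠ y ∧ w ≠ z) := by decide
  have h1 := key (f false false) (f false true) (f true false) (f true true) (by
    intro h2
    apply h
    unfold NJ
    simp only [Bool.forall_bool]
    exact h2)
  rcases h1 with h1 | h1 | h1 | h1
  · exact ⟨false, false, h1⟩
  · exact ⟨false, true, h1⟩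
  · exact ⟨true, false, h1⟩
  · exact ⟨true, true, h1⟩

theorem sum_flip_r {X : Type*} [Fintype X] {r s : K} (G : (Bool → Bool → K → X) → ℝ) :
    ∑ W, ∑ ξ, ∑ η, G (fun a b => sq W r s ξ η (!a) b) = ∑ W, ∑ ξ, ∑ η, G (sq W r s ξ η) := by
  have h := sum_swp r (fun p : (K → X) × X => ∑ η, G (sq p.1 r s p.2 η))
  rw [Fintype.sum_prod_type, Fintype.sum_prod_type] at h
  rw [← h]
  refine sum_congr rfl fun W _ => sum_congr rfl fun ξ _ => sum_congr rfl fun η _ => ?_
  congr 1
  funext a b t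
  unfold sq swp
  by_cases ht : t = r
  · subst ht
    cases a <;> simp
  · simp [ht]

theorem sum_flip_s {X : Type*} [Fintype X] {r s : K} (hrs : r ≠ s)
    (G : (Bool → Bool → K → X) → ℝ) :
    ∑ W, ∑ ξ, ∑ η, G (fun a b => sq W r s ξ η a (!b)) = ∑ W, ∑ ξ, ∑ η, G (sq W r s ξ η) := by
  have h := sum_swp s (fun p : (K → X) × X => ∑ ξ, G (sq p.1 r s ξ p.2))
  rw [Fintype.sum_prod_type, Fintype.sum_prod_type] at h
  have h2 : ∀ W : K → X, ∑ ξ, ∑ η, G (sq W r s ξ η) = ∑ η, ∑ ξ, G (sq W r s ξ η) :=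
    fun W => sum_comm
  have h3 : ∀ W : K → X, ∑ ξ, ∑ η, G (fun a b => sq W r s ξ η a (!b)) =
      ∑ η, ∑ ξ, G (fun a b => sq W r s ξ η a (!b)) := fun W => sum_comm
  simp only [h2, h3]
  rw [← h]
  refine sum_congr rfl fun W _ => sum_congr rfl fun η _ => sum_congr rfl fun ξ _ => ?_
  congr 1
  funext a b t
  unfold sq swp
  by_cases ht : t = r
  · subst ht
    simp [hrs]
  · by_cases ht2 : t = s
    · subst ht2
      cases b <;> simp [ht]
    · simp [ht, ht2]

theorem sum_dbl {X : Type*} [Fintype X] {r s : K} (hrs : r ≠ s) (O : (K → X) → Bool)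
    (a0 b0 : Bool) :
    ∑ W, ∑ ξ, ∑ η, ind (Dbl (fun a b => O (sq W r s ξ η a b)) a0 b0) =
      ∑ W, ∑ ξ, ∑ η, ind (Dbl (fun a b => O (sq W r s ξ η a b)) false false) := by
  have h1 : ∀ b0, ∑ W, ∑ ξ, ∑ η, ind (Dbl (fun a b => O (sq W r s ξ η a b)) true b0) =
      ∑ W, ∑ ξ, ∑ η, ind (Dbl (fun a b => O (sq W r s ξ η a b)) false b0) := by
    intro b0
    have := sum_flip_r (r := r) (s := s) (fun S : Bool → Bool → K → X =>
      ind (Dbl (fun a b => O (S a b)) false b0))
    rw [← this]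
    rfl
  have h2 : ∀ a0, ∑ W, ∑ ξ, ∑ η, ind (Dbl (fun a b => O (sq W r s ξ η a b)) a0 true) =
      ∑ W, ∑ ξ, ∑ η, ind (Dbl (fun a b => O (sq W r s ξ η a b)) a0 false) := by
    intro a0
    have := sum_flip_s hrs (fun S : Bool → Bool → K → X =>
      ind (Dbl (fun a b => O (S a b)) a0 false))
    rw [← this]
    rfl
  cases a0 <;> cases b0
  · rfl
  · rw [h2]
  · rw [h1]
  · rw [h1, h2]

/-- A function which is essentially a conjunction of functions of single rows. -/
theorem sep_bound {R : ℕ} (hR : 1 ≤ R) (hι : 1 + (R : ℝ) * 2 ^ (R + 1) ≤ Fintype.card ι)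
    (hn : 1 ≤ n) {r s : Fin n → K} (hr : Function.Injective r) (hs : Function.Injective s)
    (hrs : ∀ i j, r i ≠ s j) {O : (K → Fin d → ι → Bool) → Bool} (hO : Sep O) :
    ∑ W, ∑ i, ∑ j, ∑ γ : Gam d ι, ind (¬ NJ
        (fun e e' => O (sq W (r i) (s j) (xs γ) (ys γ) e e'))) ≤
      Fintype.card (Gam d ι) * ((n : ℝ) ^ (1 / (R : ℝ)) *
        (Fintype.card (K → Fin d → ι → Bool) + 4 * ∑ W, sens O W ^ 2)) := by
  have hX0 : (0 : ℝ) < Fintype.card (Fin d → ι → Bool) := by exact_mod_cast Fintype.card_pos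
  have hPQ : ∀ (W : K → (Fin d → ι → Bool)) (i j : Fin n), ∃ PQ : ((Fin d → ι → Bool) → Prop) × ((Fin d → ι → Bool) → Prop), ∀ ξ η,
      ¬ NJ (fun a b => O (sq W (r i) (s j) ξ η a b)) ↔ PQ.1 ξ ∧ PQ.2 η := by
    intro W i j
    obtain ⟨P, Q, h⟩ := nj_sep hO W (hrs i j)
    exact ⟨(P, Q), h⟩
  choose PQ hPQ using hPQ
  have hcc : ∀ (W : K → (Fin d → ι → Bool)) (i j : Fin n),
      ((cnt (PQ W i j).1 : ℝ) / Fintype.card (Fin d → ι → Bool)) * ((cnt (PQ W i j).2 : ℝ) / Fintype.card (Fin d → ι → Bool)) =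
      (∑ ξ, ∑ η, ind (¬ NJ (fun a b => O (sq W (r i) (s j) ξ η a b)))) /
        (Fintype.card (Fin d → ι → Bool) : ℝ) ^ 2 := by
    intro W i j
    simp only [hPQ, ind_and, ← mul_sum]
    rw [← sum_mul, cnt_ind, cnt_ind]
    field_simp
  have key : ∀ W, ∑ i, ∑ j, ∑ γ : Gam d ι, ind (¬ NJ
        (fun e e' => O (sq W (r i) (s j) (xs γ) (ys γ) e e'))) ≤
      Fintype.card (Gam d ι) * ((n : ℝ) ^ (1 / (R : ℝ)) *
        (1 + (∑ i, ∑ j, ∑ ξ, ∑ η, ind (¬ NJ (fun a b => O (sq W (r i) (s j) ξ η a b)))) /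
          (Fintype.card (Fin d → ι → Bool) : ℝ) ^ 2)) := by
    intro W
    have h1 := transfer hR hι hn (fun i j => (PQ W i j).1) (fun i j => (PQ W i j).2)
    simp only [hcc, ← sum_div] at h1
    simp only [← hPQ] at h1
    exact h1
  refine le_trans (sum_le_sum fun W _ => key W) ?_
  rw [← mul_sum, ← mul_sum]
  apply mul_le_mul_of_nonneg_left _ (Nat.cast_nonneg _)
  apply mul_le_mul_of_nonneg_left _ (by positivity)
  rw [sum_add_distrib, sum_const, card_univ, nsmul_eq_mul, mul_one, ← sum_div]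
  apply add_le_add_right
  rw [div_le_iff₀ (by positivity)]
  -- the four corners
  have h4 : ∀ i j : Fin n, ∑ W : K → (Fin d → ι → Bool), ∑ ξ, ∑ η,
      ind (¬ NJ (fun a b => O (sq W (r i) (s j) ξ η a b))) ≤
      4 * ∑ W : K → (Fin d → ι → Bool), ∑ ξ, ∑ η, ind (Dbl (fun a b => O (sq W (r i) (s j) ξ η a b)) false false) := by
    intro i j
    have h5 : ∀ (W : K → (Fin d → ι → Bool)) ξ η, ind (¬ NJ (fun a b => O (sq W (r i) (s j) ξ η a b))) ≤
        ∑ a0 : Bool, ∑ b0 : Bool, ind (Dbl (fun a b => O (sq W (r i) (s j) ξ η a b)) a0 b0) := by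
      intro W ξ η
      by_cases h : NJ (fun a b => O (sq W (r i) (s j) ξ η a b))
      · have : ind (¬ NJ (fun a b => O (sq W (r i) (s j) ξ η a b))) = 0 := if_neg (not_not.2 h)
        rw [this]
        exact sum_nonneg fun _ _ => sum_nonneg fun _ _ => ind_nonneg _
      · obtain ⟨a0, b0, hab⟩ := nj_dbl h
        refine (ind_le_one _).trans ?_
        have h6 : ind (Dbl (fun a b => O (sq W (r i) (s j) ξ η a b)) a0 b0) = 1 := if_pos hab
        rw [← h6]
        refine le_trans ?_ (single_le_sum (f := fun a0 => ∑ b0 : Bool,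
          ind (Dbl (fun a b => O (sq W (r i) (s j) ξ η a b)) a0 b0))
          (fun _ _ => sum_nonneg fun _ _ => ind_nonneg _) (mem_univ a0))
        exact single_le_sum (f := fun b0 =>
          ind (Dbl (fun a b => O (sq W (r i) (s j) ξ η a b)) a0 b0))
          (fun _ _ => ind_nonneg _) (mem_univ b0)
    refine le_trans (sum_le_sum fun W _ => sum_le_sum fun ξ _ => sum_le_sum fun η _ =>
      h5 W ξ η) (le_of_eq ?_)
    simp only [Fintype.sum_bool, sum_add_distrib]
    rw [sum_dbl (hrs i j) O true true, sum_dbl (hrs i j) O true false,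
      sum_dbl (hrs i j) O false true]
    ring
  have h7 : ∑ W : K → (Fin d → ι → Bool), ∑ i, ∑ j, ∑ ξ, ∑ η,
      ind (¬ NJ (fun a b => O (sq W (r i) (s j) ξ η a b))) ≤
      4 * ∑ W : K → (Fin d → ι → Bool), ∑ i, ∑ j, ∑ ξ, ∑ η,
        ind (Dbl (fun a b => O (sq W (r i) (s j) ξ η a b)) false false) := by
    rw [sum_comm]
    have e1 : ∀ i : Fin n, ∑ W : K → (Fin d → ι → Bool), ∑ j, ∑ ξ, ∑ η,
        ind (¬ NJ (fun a b => O (sq W (r i) (s j) ξ η a b))) =
        ∑ j, ∑ W : K → (Fin d → ι → Bool), ∑ ξ, ∑ η,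
        ind (¬ NJ (fun a b => O (sq W (r i) (s j) ξ η a b))) := fun i => sum_comm
    simp only [e1]
    refine le_trans (sum_le_sum fun i _ => sum_le_sum fun j _ => h4 i j) (le_of_eq ?_)
    simp only [← mul_sum]
    congr 1
    rw [sum_comm (s := (univ : Finset (K → (Fin d → ι → Bool))))]
    refine sum_congr rfl fun i _ => ?_
    rw [sum_comm]
  refine h7.trans ?_
  rw [mul_assoc]
  apply mul_le_mul_of_nonneg_left _ (by norm_num)
  rw [sum_mul]
  refine sum_le_sum fun W _ => ?_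
  have h8 : ∀ i j : Fin n, ∑ ξ, ∑ η,
      ind (Dbl (fun a b => O (sq W (r i) (s j) ξ η a b)) false false) =
      ((cnt (fun ξ : (Fin d → ι → Bool) => O (Function.update W (r i) ξ) ≠ O W) : ℝ) / Fintype.card (Fin d → ι → Bool)) *
      ((cnt (fun ξ : (Fin d → ι → Bool) => O (Function.update W (s j) ξ) ≠ O W) : ℝ) / Fintype.card (Fin d → ι → Bool)) *
        (Fintype.card (Fin d → ι → Bool) : ℝ) ^ 2 := by
    intro i j
    have e2 : ∀ ξ η : (Fin d → ι → Bool), ind (Dbl (fun a b => O (sq W (r i) (s j) ξ η a b)) false false) =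
        ind (O (Function.update W (r i) ξ) ≠ O W) * ind (O (Function.update W (s j) η) ≠ O W) := by
      intro ξ η
      rw [← ind_and]
      unfold Dbl
      simp only [Bool.not_false]
      rw [sq_ff, sq_tf, sq_ft W (hrs i j)]
      congr 1
      rw [ne_comm, ne_comm (a := O W)]
    simp only [e2, ← mul_sum]
    rw [← sum_mul, cnt_ind, cnt_ind]
    field_simp
  simp only [h8, ← sum_mul]
  apply mul_le_mul_of_nonneg_right _ (by positivity)
  have h9 := sum_prod_sens O O W hr hs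
  linarith

end transfer

end Pool.Agent.V8H16.OW
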