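import Mathlib
import Pool.Agent.V8H16.OW.Transfer
import Pool.Agent.V8H16.OV.Valid

/-!
# The random instances
-/

set_option autoImplicit false
set_option linter.unusedSectionVars false

open Finset Classical

namespace Pool.Agent.V8H16.OW

open Pool.Agent.V8H16.OV (cnt cnt_or cnt_mono cnt_congr cnt_exists')

section marg

variable {ι : Type*} [Fintype ι] [DecidableEq ι] {d : ℕ}

/-- The first part of the pair and the other data. -/
def splitGam : Gam d ι ≃ (Fin d → ι → Bool) × (Fin d → ι × (ι → Bool)) where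
  toFun γ := (xs γ, fun t => ((γ t).1, (γ t).2.2))
  invFun p := fun t => ((p.2 t).1, p.1 t, (p.2 t).2)
  left_inv _ := rfl
  right_inv _ := rfl

theorem sum_xs (G : (Fin d → ι → Bool) → ℝ) :
    Fintype.card (Fin d → ι → Bool) * ∑ γ : Gam d ι, G (xs γ) =
      Fintype.card (Gam d ι) * ∑ ξ, G ξ := by
  have h1 : ∑ γ : Gam d ι, G (xs γ) =
      Fintype.card (Fin d → ι × (ι → Bool)) * ∑ ξ, G ξ := by
    rw [← Equiv.sum_comp (splitGam (d := d) (ι := ι)).symm, Fintype.sum_prod_type, mul_sum]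
    refine sum_congr rfl fun ξ _ => ?_
    have : ∀ p : Fin d → ι × (ι → Bool), G (xs ((splitGam (d := d) (ι := ι)).symm (ξ, p))) = G ξ :=
      fun p => rfl
    simp only [this]
    rw [sum_const, card_univ, nsmul_eq_mul]
  have h2 : Fintype.card (Gam d ι) =
      Fintype.card (Fin d → ι → Bool) * Fintype.card (Fin d → ι × (ι → Bool)) := by
    rw [Fintype.card_congr (splitGam (d := d) (ι := ι)), Fintype.card_prod]
  rw [h1, h2]
  push_cast
  ring

/-- The exchange of the two parts of the pair. -/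
def exch (γ : Gam d ι) : Gam d ι := fun t =>
  ((γ t).1, snd1 (γ t), Function.update (γ t).2.1 (γ t).1 (!(γ t).2.2 (γ t).1))

theorem exch_inv : Function.Involutive (exch (d := d) (ι := ι)) := by
  intro γ
  funext t
  unfold exch snd1
  obtain ⟨κ, ξ, ζ⟩ := γ t
  simp

theorem sum_ys (G : (Fin d → ι → Bool) → ℝ) :
    Fintype.card (Fin d → ι → Bool) * ∑ γ : Gam d ι, G (ys γ) =
      Fintype.card (Gam d ι) * ∑ ξ, G ξ := by
  rw [← sum_xs]
  congr 1
  exact Equiv.sum_comp (exch_inv (d := d) (ι := ι)).toPerm (fun γ => G (xs γ))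

variable {K : Type*} [Fintype K] [DecidableEq K]

theorem sum_update_xs (r : K) (F : (K → Fin d → ι → Bool) → ℝ) :
    ∑ W, ∑ γ : Gam d ι, F (Function.update W r (xs γ)) = Fintype.card (Gam d ι) * ∑ W, F W := by
  have hX0 : (0 : ℝ) < Fintype.card (Fin d → ι → Bool) := by exact_mod_cast Fintype.card_pos
  have h1 : ∀ W : K → Fin d → ι → Bool, (Fintype.card (Fin d → ι → Bool) : ℝ) *
      ∑ γ : Gam d ι, F (Function.update W r (xs γ)) =
      Fintype.card (Gam d ι) * ∑ ξ, F (Function.update W r ξ) := fun W =>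
    sum_xs (fun ξ => F (Function.update W r ξ))
  have h2 : (Fintype.card (Fin d → ι → Bool) : ℝ) *
      ∑ W, ∑ γ : Gam d ι, F (Function.update W r (xs γ)) =
      Fintype.card (Fin d → ι → Bool) * (Fintype.card (Gam d ι) * ∑ W, F W) := by
    rw [mul_sum, sum_congr rfl fun W _ => h1 W, ← mul_sum, sum_update_row]
    ring
  exact mul_left_cancel₀ hX0.ne' h2

theorem sum_update_ys (r : K) (F : (K → Fin d → ι → Bool) → ℝ) :
    ∑ W, ∑ γ : Gam d ι, F (Function.update W r (ys γ)) = Fintype.card (Gam d ι) * ∑ W, F W := by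
  have hX0 : (0 : ℝ) < Fintype.card (Fin d → ι → Bool) := by exact_mod_cast Fintype.card_pos
  have h1 : ∀ W : K → Fin d → ι → Bool, (Fintype.card (Fin d → ι → Bool) : ℝ) *
      ∑ γ : Gam d ι, F (Function.update W r (ys γ)) =
      Fintype.card (Gam d ι) * ∑ ξ, F (Function.update W r ξ) := fun W =>
    sum_ys (fun ξ => F (Function.update W r ξ))
  have h2 : (Fintype.card (Fin d → ι → Bool) : ℝ) *
      ∑ W, ∑ γ : Gam d ι, F (Function.update W r (ys γ)) =
      Fintype.card (Fin d → ι → Bool) * (Fintype.card (Gam d ι) * ∑ W, F W) := by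
    rw [mul_sum, sum_congr rfl fun W _ => h1 W, ← mul_sum, sum_update_row]
    ring
  exact mul_left_cancel₀ hX0.ne' h2

theorem sum_coord2 {X : Type*} [Fintype X] {r r' : K} (hrr : r ≠ r') (G : X → X → ℝ) :
    (Fintype.card X : ℝ) ^ 2 * ∑ W : K → X, G (W r) (W r') =
      Fintype.card (K → X) * ∑ ξ, ∑ η, G ξ η := by
  have h1 := sum_update_row r (fun W : K → X => G (W r) (W r'))
  simp only [Function.update_self, Function.update_of_ne hrr.symm] at h1
  rw [sum_comm] at h1
  rw [pow_two, mul_assoc, ← h1, mul_sum, mul_sum]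
  exact sum_congr rfl fun ξ _ => sum_coord r' (fun η => G ξ η)

theorem ind_forall {d : ℕ} (P : Fin d → Prop) : ind (∀ t, P t) = ∏ t, ind (P t) := by
  by_cases h : ∀ t, P t
  · have h1 : ind (∀ t, P t) = 1 := if_pos h
    rw [h1, prod_eq_one]
    intro t _
    exact if_pos (h t)
  · have h1 : ind (∀ t, P t) = 0 := if_neg h
    push Not at h
    obtain ⟨t, ht⟩ := h
    rw [h1, prod_eq_zero (mem_univ t)]
    exact if_neg ht

/-- Two rows never have certain values at the same coordinate. -/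
theorem cnt_avoid [Nonempty ι] {r r' : K} (hrr : r ≠ r') (c : Bool) :
    (cnt (fun W : K → Fin d → ι → Bool =>
      ∀ t, ¬ ((∀ k, W r t k = true) ∧ ∀ k, W r' t k = c)) : ℝ) =
    Fintype.card (K → Fin d → ι → Bool) * (1 - 1 / (4 : ℝ) ^ Fintype.card ι) ^ d := by
  have h1 := sum_coord2 (X := Fin d → ι → Bool) hrr
    (fun ξ η => ind (∀ t, ¬ ((∀ k, ξ t k = true) ∧ ∀ k, η t k = c)))
  rw [← cnt_ind] at h1
  set N : ℝ := (2 : ℝ) ^ Fintype.card ι with hN
  have hN0 : 0 < N := by positivity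
  have h4 : (4 : ℝ) ^ Fintype.card ι = N ^ 2 := by
    rw [hN, ← pow_mul, mul_comm, pow_mul]
    norm_num
  have h2 : ∑ ξ : Fin d → ι → Bool, ∑ η : Fin d → ι → Bool,
      ind (∀ t, ¬ ((∀ k, ξ t k = true) ∧ ∀ k, η t k = c)) = (N ^ 2 - 1) ^ d := by
    rw [← Fintype.sum_prod_type']
    rw [← Equiv.sum_comp (Equiv.arrowProdEquivProdArrow (Fin d) (fun _ => ι → Bool)
      (fun _ => ι → Bool))]
    have e1 : ∀ p : Fin d → (ι → Bool) × (ι → Bool),
        ind (∀ t, ¬ ((∀ k, (p t).1 k = true) ∧ ∀ k, (p t).2 k = c)) =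
        ∏ t, ind (¬ ((∀ k, (p t).1 k = true) ∧ ∀ k, (p t).2 k = c)) := by
      intro p
      exact ind_forall _
    have e2 : ∀ p : Fin d → (ι → Bool) × (ι → Bool),
        ind (∀ t, ¬ ((∀ k, ((Equiv.arrowProdEquivProdArrow (Fin d) (fun _ => ι → Bool)
          (fun _ => ι → Bool)) p).1 t k = true) ∧
          ∀ k, ((Equiv.arrowProdEquivProdArrow (Fin d) (fun _ => ι → Bool)
          (fun _ => ι → Bool)) p).2 t k = c)) =
        ∏ t, ind (¬ ((∀ k, (p t).1 k = true) ∧ ∀ k, (p t).2 k = c)) := fun p => e1 p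
    rw [sum_congr rfl fun p _ => e2 p]
    have e3 := Fintype.sum_pow (fun a : (ι → Bool) × (ι → Bool) =>
      ind (¬ ((∀ k, a.1 k = true) ∧ ∀ k, a.2 k = c))) d
    rw [← e3]
    congr 1
    have e4 : ∀ a : (ι → Bool) × (ι → Bool), ind (¬ ((∀ k, a.1 k = true) ∧ ∀ k, a.2 k = c)) =
        1 - if a = (fun _ => true, fun _ => c) then (1 : ℝ) else 0 := by
      rintro ⟨a, b⟩
      unfold ind
      have : ((∀ k, a k = true) ∧ ∀ k, b k = c) ↔ (a, b) = (fun _ => true, fun _ => c) := by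
        rw [Prod.mk.injEq, funext_iff, funext_iff]
      simp only [this]
      split_ifs <;> simp_all
    rw [sum_congr rfl fun a _ => e4 a, sum_sub_distrib, sum_ite_eq']
    simp only [mem_univ, if_true, sum_const, card_univ, nsmul_eq_mul, mul_one]
    rw [Fintype.card_prod, Fintype.card_fun, Fintype.card_bool]
    push_cast
    rw [hN]
    ring
  have h3 : (Fintype.card (Fin d → ι → Bool) : ℝ) = N ^ d := by
    rw [card_blocks]
  rw [h2, h3] at h1
  rw [h4]
  have h5 : (1 - 1 / N ^ 2) ^ d = (N ^ 2 - 1) ^ d / (N ^ d) ^ 2 := by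
    have : 1 - 1 / N ^ 2 = (N ^ 2 - 1) / N ^ 2 := by field_simp
    rw [this, div_pow]
    congr 1
    ring
  rw [h5]
  field_simp
  linarith

end marg

end Pool.Agent.V8H16.OW
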