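import Mathlib
import Pool.Agent.V8H16.OW.Marg

/-!
# Circuits over functions of single vectors
-/

set_option autoImplicit false
set_option linter.unusedSectionVars false

open Finset Classical

namespace Pool.Agent.V8H16.OW

open Pool.Agent.V8H16.OV (cnt cnt_or cnt_mono cnt_congr cnt_exists')
open H568R2 (Junta DepOn)
open DomAC0

/-- The vectors of each list are distinct. -/
def Valid {n d : ℕ} (x : Bool × Fin n → Fin d → Bool) : Prop :=
  ∀ e : Bool, Function.Injective fun i : Fin n => x (e, i)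

/-- A vector of the first list is orthogonal to a vector of the second list. -/
def Orth {n d : ℕ} (x : Bool × Fin n → Fin d → Bool) : Prop :=
  ∃ i j : Fin n, ∀ t : Fin d, ¬ (x (false, i) t = true ∧ x (true, j) t = true)

/-- A circuit whose input bits are arbitrary functions of single vectors: the input bit `(r, f)` is
the value of `f` at the vector `x r`. -/
abbrev VecCircuit (n d : ℕ) := Circuit ((Bool × Fin n) × ((Fin d → Bool) → Bool))

/-- The input bits. -/
def inputs {n d : ℕ} (x : Bool × Fin n → Fin d → Bool) :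
    (Bool × Fin n) × ((Fin d → Bool) → Bool) → Bool := fun j => j.2 (x j.1)

/-- A bit is one if all its parts are one. -/
def vec {d M : ℕ} (ξ : Fin d → Fin M → Bool) : Fin d → Bool := fun t => decide (∀ k, ξ t k = true)

section main

variable {n d M : ℕ}

theorem orth_vec (γ : Gam d (Fin M)) (t : Fin d) :
    ¬ (vec (xs γ) t = true ∧ vec (ys γ) t = true) := by
  rintro ⟨h1, h2⟩
  unfold vec at h1 h2
  rw [decide_eq_true_eq] at h1 h2
  have h3 := h2 (γ t).1
  have h4 := h1 (γ t).1
  unfold ys snd1 at h3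
  unfold xs at h4
  rw [Function.update_self, h4] at h3
  simp at h3

/-- Two rows are never one and never one and zero, respectively, at the same coordinate. -/
def Bad (W : Bool × Fin n → Fin d → Fin M → Bool) : Prop :=
  ∃ p : ((Bool × Fin n) × (Bool × Fin n)) × Bool, p.1.1 ≠ p.1.2 ∧
    ∀ t, ¬ ((∀ k, W p.1.1 t k = true) ∧ ∀ k, W p.1.2 t k = p.2)

theorem bad_bound [Nonempty (Fin M)] :
    (cnt (fun W : Bool × Fin n → Fin d → Fin M → Bool => Bad W) : ℝ) ≤
      Fintype.card (Bool × Fin n → Fin d → Fin M → Bool) *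
        (8 * (n : ℝ) ^ 2 * (1 - 1 / (4 : ℝ) ^ M) ^ d) := by
  have h1 : (cnt (fun W : Bool × Fin n → Fin d → Fin M → Bool => Bad W) : ℝ) ≤
      ∑ p : ((Bool × Fin n) × (Bool × Fin n)) × Bool,
      (cnt (fun W : Bool × Fin n → Fin d → Fin M → Bool => p.1.1 ≠ p.1.2 ∧
    ∀ t, ¬ ((∀ k, W p.1.1 t k = true) ∧ ∀ k, W p.1.2 t k = p.2)) : ℝ) := by
    have := cnt_exists' (fun (p : ((Bool × Fin n) × (Bool × Fin n)) × Bool)
      (W : Bool × Fin n → Fin d → Fin M → Bool) => p.1.1 ≠ p.1.2 ∧
      ∀ t, ¬ ((∀ k, W p.1.1 t k = true) ∧ ∀ k, W p.1.2 t k = p.2))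
    exact_mod_cast this
  have hq : (0 : ℝ) ≤ 1 - 1 / (4 : ℝ) ^ M := by
    have : 1 / (4 : ℝ) ^ M ≤ 1 := by
      rw [div_le_one (by positivity)]
      exact one_le_pow₀ (by norm_num)
    linarith
  have h2 : ∀ p : ((Bool × Fin n) × (Bool × Fin n)) × Bool,
      (cnt (fun W : Bool × Fin n → Fin d → Fin M → Bool => p.1.1 ≠ p.1.2 ∧
      ∀ t, ¬ ((∀ k, W p.1.1 t k = true) ∧ ∀ k, W p.1.2 t k = p.2)) : ℝ) ≤
      Fintype.card (Bool × Fin n → Fin d → Fin M → Bool) * (1 - 1 / (4 : ℝ) ^ M) ^ d := by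
    rintro ⟨⟨r, r'⟩, c⟩
    by_cases hne : r ≠ r'
    · have h3 := cnt_avoid (ι := Fin M) (d := d) hne c
      rw [Fintype.card_fin] at h3
      rw [← h3]
      have h4 : cnt (fun W : Bool × Fin n → Fin d → Fin M → Bool => r ≠ r' ∧
          ∀ t, ¬ ((∀ k, W r t k = true) ∧ ∀ k, W r' t k = c)) ≤
          cnt (fun W : Bool × Fin n → Fin d → Fin M → Bool =>
          ∀ t, ¬ ((∀ k, W r t k = true) ∧ ∀ k, W r' t k = c)) := cnt_mono fun W h => h.2
      exact_mod_cast h4
    · have h4 : cnt (fun W : Bool × Fin n → Fin d → Fin M → Bool => r ≠ r' ∧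
          ∀ t, ¬ ((∀ k, W r t k = true) ∧ ∀ k, W r' t k = c)) ≤
          cnt (fun _ : Bool × Fin n → Fin d → Fin M → Bool => False) :=
        cnt_mono fun W h => hne h.1
      have h5 : cnt (fun _ : Bool × Fin n → Fin d → Fin M → Bool => False) = 0 := by
        unfold cnt
        simp
      rw [h5] at h4
      have h6 : (cnt (fun W : Bool × Fin n → Fin d → Fin M → Bool => r ≠ r' ∧
          ∀ t, ¬ ((∀ k, W r t k = true) ∧ ∀ k, W r' t k = c)) : ℝ) ≤ 0 := by exact_mod_cast h4
      exact h6.trans (mul_nonneg (Nat.cast_nonneg _) (pow_nonneg hq d))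
  refine h1.trans (le_trans (sum_le_sum fun p _ => h2 p) (le_of_eq ?_))
  rw [sum_const, card_univ, nsmul_eq_mul, Fintype.card_prod, Fintype.card_prod, Fintype.card_prod,
    Fintype.card_bool, Fintype.card_fin]
  push_cast
  ring

theorem not_bad_inj [Nonempty (Fin M)] {W : Bool × Fin n → Fin d → Fin M → Bool} (h : ¬ Bad W)
    {r r' : Bool × Fin n} (hrr : vec (W r) = vec (W r')) : r = r' := by
  by_contra hne
  apply h
  refine ⟨((r, r'), false), hne, fun t ht => ?_⟩
  have h1 := congrFun hrr t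
  unfold vec at h1
  rw [decide_eq_decide] at h1
  have h2 := (h1.1 ht.1) (Classical.arbitrary (Fin M))
  rw [ht.2 (Classical.arbitrary (Fin M))] at h2
  simp at h2

theorem not_bad_orth {W : Bool × Fin n → Fin d → Fin M → Bool} (h : ¬ Bad W) :
    ¬ Orth (fun r => vec (W r)) := by
  rintro ⟨i, j, hij⟩
  apply h
  refine ⟨(((false, i), (true, j)), true), by simp, fun t ht => hij t ?_⟩
  unfold vec
  exact ⟨decide_eq_true ht.1, decide_eq_true ht.2⟩

theorem not_bad_valid [Nonempty (Fin M)] {W : Bool × Fin n → Fin d → Fin M → Bool}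
    (h : ¬ Bad W) : Valid (fun r => vec (W r)) := by
  intro e i j hij
  have := not_bad_inj h hij
  exact (Prod.ext_iff.1 this).2

theorem planted [Nonempty (Fin M)] {W : Bool × Fin n → Fin d → Fin M → Bool} {i j : Fin n}
    {γ : Gam d (Fin M)} (h1 : ¬ Bad (Function.update W (false, i) (xs γ)))
    (h2 : ¬ Bad (Function.update W (true, j) (ys γ))) :
    Valid (fun r => vec (sq W (false, i) (true, j) (xs γ) (ys γ) true true r)) ∧
      Orth (fun r => vec (sq W (false, i) (true, j) (xs γ) (ys γ) true true r)) := by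
  have hne : ((false, i) : Bool × Fin n) ≠ (true, j) := by simp
  constructor
  · intro e i' j' hij
    rw [sq_tt W hne] at hij
    cases e
    · have e1 : ∀ l : Fin n, Function.update (Function.update W (false, i) (xs γ)) (true, j) (ys γ)
          (false, l) = Function.update W (false, i) (xs γ) (false, l) := fun l =>
        Function.update_of_ne (by simp) _ _
      simp only [e1] at hij
      exact (Prod.ext_iff.1 (not_bad_inj h1 hij)).2
    · have e1 : ∀ l : Fin n, Function.update (Function.update W (false, i) (xs γ)) (true, j) (ys γ)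
          (true, l) = Function.update W (true, j) (ys γ) (true, l) := by
        intro l
        rw [Function.update_comm hne]
        exact Function.update_of_ne (by simp) _ _
      simp only [e1] at hij
      exact (Prod.ext_iff.1 (not_bad_inj h2 hij)).2
  · refine ⟨i, j, fun t => ?_⟩
    have e1 : sq W (false, i) (true, j) (xs γ) (ys γ) true true (false, i) = xs γ := by simp [sq]
    have e2 : sq W (false, i) (true, j) (xs γ) (ys γ) true true (true, j) = ys γ := by simp [sq]
    simp only [e1, e2]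
    exact orth_vec γ t

theorem junta_inputs (p : (Bool × Fin n → Fin d → Fin M → Bool) × (Bool × Fin n → Fin d → Fin M → Bool))
    (j : (Bool × Fin n) × ((Fin d → Bool) → Bool)) :
    Junta 1 (fun b : Bool × Fin n → Bool => inputs (fun r => vec (mix b p r)) j) := by
  refine ⟨{j.1}, by simp, fun x y h => ?_⟩
  have := h j.1 (mem_singleton_self _)
  simp only [inputs, mix, this]

theorem pre_moment (C : VecCircuit n d) {h k : ℕ} (hh : 1 ≤ h) {Bd : ℝ}
    (hBd : (24 * h : ℝ) ^ (2 * k) * ((h : ℝ) ^ 2 + (2 * n : ℝ) ^ 2 *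
      (k * (cost C : ℝ) * (1 / 2) ^ (h + 1))) ≤ Bd) (g : Fin C.size) (hg : C.gateDepth g ≤ k)
    (i : ℕ) :
    ∑ W : Bool × Fin n → Fin d → Fin M → Bool,
      sens (fun W => pre C g i (inputs (fun r => vec (W r)))) W ^ 2 ≤
      Fintype.card (Bool × Fin n → Fin d → Fin M → Bool) * Bd := by
  refine sens_moment _ Fintype.card_pos fun p => ?_
  refine le_trans (gate_moment C (fun b : Bool × Fin n → Bool => inputs (fun r => vec (mix b p r)))
    (junta_inputs p) hh g hg i) ?_
  rw [Fintype.card_prod, Fintype.card_bool, Fintype.card_fin]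
  push_cast
  exact hBd

theorem node_moment (C : VecCircuit n d) {h k : ℕ} (hh : 1 ≤ h) {Bd : ℝ}
    (hBd : (24 * h : ℝ) ^ (2 * k) * ((h : ℝ) ^ 2 + (2 * n : ℝ) ^ 2 *
      (k * (cost C : ℝ) * (1 / 2) ^ (h + 1))) ≤ Bd) (g : Fin C.size) (hg : C.gateDepth g ≤ k)
    (v : ((Bool × Fin n) × ((Fin d → Bool) → Bool)) ⊕ Fin C.size) (hv : v ∈ gats C g) :
    ∑ W : Bool × Fin n → Fin d → Fin M → Bool,
      sens (fun W => C.nodeVal (inputs (fun r => vec (W r))) v) W ^ 2 ≤
      Fintype.card (Bool × Fin n → Fin d → Fin M → Bool) * Bd := by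
  obtain ⟨hv1, hv2⟩ := mem_gats.1 hv
  have hd := H568R2.depth_lt C g v hv1
  cases v with
  | inl j => simp at hv2
  | inr g' =>
    have h1 : C.gateDepth g' < C.gateDepth g := hd
    have h2 := pre_moment (M := M) C hh hBd g' (by omega) (gats C g').length
    simp only [pre_full] at h2
    exact h2

theorem circuit_bound {R : ℕ} (hR : 1 ≤ R) (hM : 1 + (R : ℝ) * 2 ^ (R + 1) ≤ M) (hn : 1 ≤ n)
    (C : VecCircuit n d) {h k : ℕ} (hh : 1 ≤ h) (hk : C.depth ≤ k) {Bd : ℝ} (hBd0 : 0 ≤ Bd)
    (hBd : (24 * h : ℝ) ^ (2 * k) * ((h : ℝ) ^ 2 + (2 * n : ℝ) ^ 2 *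
      (k * (cost C : ℝ) * (1 / 2) ^ (h + 1))) ≤ Bd) :
    ∑ W : Bool × Fin n → Fin d → Fin M → Bool, ∑ i : Fin n, ∑ j : Fin n, ∑ γ : Gam d (Fin M),
      ind (¬ NJ (fun e e' => C.eval (inputs (fun r =>
        vec (sq W (false, i) (true, j) (xs γ) (ys γ) e e' r))))) ≤
    cost C * (Fintype.card (Gam d (Fin M)) * ((n : ℝ) ^ (1 / (R : ℝ)) *
      (Fintype.card (Bool × Fin n → Fin d → Fin M → Bool) * (4 * (1 + Bd))))) := by
  have hr : Function.Injective (fun i : Fin n => ((false, i) : Bool × Fin n)) := by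
    intro i j h
    exact (Prod.ext_iff.1 h).2
  have hs : Function.Injective (fun i : Fin n => ((true, i) : Bool × Fin n)) := by
    intro i j h
    exact (Prod.ext_iff.1 h).2
  have hrs : ∀ i j : Fin n, ((false, i) : Bool × Fin n) ≠ (true, j) := fun i j => by simp
  have hM' : 1 + (R : ℝ) * 2 ^ (R + 1) ≤ Fintype.card (Fin M) := by rwa [Fintype.card_fin]
  set NW : ℝ := (Fintype.card (Bool × Fin n → Fin d → Fin M → Bool) : ℝ) with hNW
  set V : ℝ := Fintype.card (Gam d (Fin M)) * ((n : ℝ) ^ (1 / (R : ℝ)) * (NW * (4 * (1 + Bd))))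
    with hV
  have hV0 : 0 ≤ V := by positivity
  -- the parts of the sum
  set E0 : Fin C.size → (Bool × Fin n → Fin d → Fin M → Bool) → Fin n → Fin n →
      Gam d (Fin M) → ℝ := fun g W i j γ => ind (¬ NJ (fun e e' => pre C g 0 (inputs (fun r =>
        vec (sq W (false, i) (true, j) (xs γ) (ys γ) e e' r))))) with hE0
  set E1 : (g : Fin C.size) → Fin (gats C g).length →
      (Bool × Fin n → Fin d → Fin M → Bool) → Fin n → Fin n → Gam d (Fin M) → ℝ :=
    fun g l W i j γ => ind (Pair
      (fun e e' => pre C g l (inputs (fun r =>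
        vec (sq W (false, i) (true, j) (xs γ) (ys γ) e e' r))))
      (fun e e' => C.nodeVal (inputs (fun r =>
        vec (sq W (false, i) (true, j) (xs γ) (ys γ) e e' r))) ((gats C g).get l))) with hE1
  have hpt : ∀ (W : Bool × Fin n → Fin d → Fin M → Bool) (i j : Fin n) (γ : Gam d (Fin M)),
      ind (¬ NJ (fun e e' => C.eval (inputs (fun r =>
        vec (sq W (false, i) (true, j) (xs γ) (ys γ) e e' r))))) ≤
      ∑ g ∈ univ.filter (fun g : Fin C.size => C.gateDepth g ≤ k),
        (E0 g W i j γ + ∑ l : Fin (gats C g).length, E1 g l W i j γ) := by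
    intro W i j γ
    have hnn : ∀ g ∈ univ.filter (fun g : Fin C.size => C.gateDepth g ≤ k),
        0 ≤ E0 g W i j γ + ∑ l : Fin (gats C g).length, E1 g l W i j γ := fun g _ =>
      add_nonneg (ind_nonneg _) (sum_nonneg fun l _ => ind_nonneg _)
    by_cases hNJ : NJ (fun e e' => C.eval (inputs (fun r =>
        vec (sq W (false, i) (true, j) (xs γ) (ys γ) e e' r))))
    · have : ind (¬ NJ (fun e e' => C.eval (inputs (fun r =>
        vec (sq W (false, i) (true, j) (xs γ) (ys γ) e e' r))))) = 0 := if_neg (not_not.2 hNJ)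
      rw [this]
      exact sum_nonneg hnn
    · obtain ⟨g, hg, hg2⟩ := nj_eval C (fun e e' => inputs (fun r =>
        vec (sq W (false, i) (true, j) (xs γ) (ys γ) e e' r))) hk (by
          intro l
          by_cases hl : l.1 = (false, i)
          · right
            intro e
            simp only [inputs, sq, hl, if_true]
          · left
            intro e
            simp only [inputs, sq, hl, if_false]) hNJ
      refine (ind_le_one _).trans ?_
      refine le_trans ?_ (single_le_sum hnn (mem_filter.2 ⟨mem_univ g, hg⟩))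
      rcases hg2 with hg2 | ⟨l, hl⟩
      · have h1 : E0 g W i j γ = 1 := if_pos hg2
        have h2 : 0 ≤ ∑ l : Fin (gats C g).length, E1 g l W i j γ :=
          sum_nonneg fun l _ => ind_nonneg _
        linarith
      · have h1 : E1 g l W i j γ = 1 := if_pos hl
        have h2 : 0 ≤ E0 g W i j γ := ind_nonneg _
        have h3 : E1 g l W i j γ ≤ ∑ l : Fin (gats C g).length, E1 g l W i j γ :=
          single_le_sum (f := fun l => E1 g l W i j γ) (fun l _ => ind_nonneg _) (mem_univ l)
        linarith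
  refine le_trans (sum_le_sum fun W _ => sum_le_sum fun i _ => sum_le_sum fun j _ =>
    sum_le_sum fun γ _ => hpt W i j γ) ?_
  -- the sums are exchanged
  have hex : ∑ W : Bool × Fin n → Fin d → Fin M → Bool, ∑ i : Fin n, ∑ j : Fin n,
      ∑ γ : Gam d (Fin M), ∑ g ∈ univ.filter (fun g : Fin C.size => C.gateDepth g ≤ k),
        (E0 g W i j γ + ∑ l : Fin (gats C g).length, E1 g l W i j γ) =
      ∑ g ∈ univ.filter (fun g : Fin C.size => C.gateDepth g ≤ k),
        ((∑ W, ∑ i, ∑ j, ∑ γ, E0 g W i j γ) +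
          ∑ l : Fin (gats C g).length, ∑ W, ∑ i, ∑ j, ∑ γ, E1 g l W i j γ) := by
    have e1 : ∀ W i j, ∑ γ : Gam d (Fin M),
        ∑ g ∈ univ.filter (fun g : Fin C.size => C.gateDepth g ≤ k),
        (E0 g W i j γ + ∑ l : Fin (gats C g).length, E1 g l W i j γ) =
        ∑ g ∈ univ.filter (fun g : Fin C.size => C.gateDepth g ≤ k),
        ∑ γ : Gam d (Fin M), (E0 g W i j γ + ∑ l : Fin (gats C g).length, E1 g l W i j γ) :=
      fun W i j => sum_comm
    simp only [e1]
    have e2 : ∀ W i, ∑ j : Fin n,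
        ∑ g ∈ univ.filter (fun g : Fin C.size => C.gateDepth g ≤ k),
        ∑ γ : Gam d (Fin M), (E0 g W i j γ + ∑ l : Fin (gats C g).length, E1 g l W i j γ) =
        ∑ g ∈ univ.filter (fun g : Fin C.size => C.gateDepth g ≤ k), ∑ j : Fin n,
        ∑ γ : Gam d (Fin M), (E0 g W i j γ + ∑ l : Fin (gats C g).length, E1 g l W i j γ) :=
      fun W i => sum_comm
    simp only [e2]
    have e3 : ∀ W, ∑ i : Fin n,
        ∑ g ∈ univ.filter (fun g : Fin C.size => C.gateDepth g ≤ k), ∑ j : Fin n,
        ∑ γ : Gam d (Fin M), (E0 g W i j γ + ∑ l : Fin (gats C g).length, E1 g l W i j γ) =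
        ∑ g ∈ univ.filter (fun g : Fin C.size => C.gateDepth g ≤ k), ∑ i : Fin n, ∑ j : Fin n,
        ∑ γ : Gam d (Fin M), (E0 g W i j γ + ∑ l : Fin (gats C g).length, E1 g l W i j γ) :=
      fun W => sum_comm
    simp only [e3]
    rw [sum_comm]
    refine sum_congr rfl fun g _ => ?_
    simp only [sum_add_distrib]
    congr 1
    have e4 : ∀ W i j, ∑ γ : Gam d (Fin M), ∑ l : Fin (gats C g).length, E1 g l W i j γ =
        ∑ l : Fin (gats C g).length, ∑ γ : Gam d (Fin M), E1 g l W i j γ := fun W i j => sum_comm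
    simp only [e4]
    have e5 : ∀ W i, ∑ j : Fin n, ∑ l : Fin (gats C g).length, ∑ γ : Gam d (Fin M),
        E1 g l W i j γ = ∑ l : Fin (gats C g).length, ∑ j : Fin n, ∑ γ : Gam d (Fin M),
        E1 g l W i j γ := fun W i => sum_comm
    simp only [e5]
    have e6 : ∀ W, ∑ i : Fin n, ∑ l : Fin (gats C g).length, ∑ j : Fin n, ∑ γ : Gam d (Fin M),
        E1 g l W i j γ = ∑ l : Fin (gats C g).length, ∑ i : Fin n, ∑ j : Fin n,
        ∑ γ : Gam d (Fin M), E1 g l W i j γ := fun W => sum_comm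
    simp only [e6]
    rw [sum_comm]
  rw [hex]
  have hterm0 : ∀ g, C.gateDepth g ≤ k → ∑ W, ∑ i, ∑ j, ∑ γ, E0 g W i j γ ≤ V := by
    intro g hg
    have h1 := sep_bound (d := d) hR hM' hn hr hs hrs
      (sep_pre (X := Fin d → Fin M → Bool) C (fun j => j.1) (fun j ξ => j.2 (vec ξ)) g)
    have h2 := pre_moment (M := M) C hh hBd g hg 0
    refine le_trans h1 ?_
    rw [hV]
    apply mul_le_mul_of_nonneg_left _ (Nat.cast_nonneg _)
    apply mul_le_mul_of_nonneg_left _ (by positivity)
    have h3 : ∑ W : Bool × Fin n → Fin d → Fin M → Bool, sens (fun W =>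
        pre C g 0 (fun j => j.2 (vec (W j.1)))) W ^ 2 ≤ NW * Bd := h2
    have h4 : 0 ≤ NW := by positivity
    linarith
  have hterm1 : ∀ g, C.gateDepth g ≤ k → ∀ l : Fin (gats C g).length,
      ∑ W, ∑ i, ∑ j, ∑ γ, E1 g l W i j γ ≤ V := by
    intro g hg l
    have h1 := pair_bound (d := d) hR hM' hn hr hs hrs
      (fun W : Bool × Fin n → Fin d → Fin M → Bool => pre C g l (inputs (fun r => vec (W r))))
      (fun W : Bool × Fin n → Fin d → Fin M → Bool =>
        C.nodeVal (inputs (fun r => vec (W r))) ((gats C g).get l))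
    have h2 := pre_moment (M := M) C hh hBd g hg l
    have h3 := node_moment (M := M) C hh hBd g hg _ (List.get_mem (gats C g) l)
    refine le_trans h1 ?_
    rw [hV]
    apply mul_le_mul_of_nonneg_left _ (Nat.cast_nonneg _)
    apply mul_le_mul_of_nonneg_left _ (by positivity)
    have h4 : 0 ≤ NW := by positivity
    have h5 : 0 ≤ NW * Bd := by positivity
    rw [← hNW] at h2 h3 ⊢
    linarith
  refine le_trans (sum_le_sum (g := fun g => (1 + (gats C g).length : ℝ) * V) fun g hg => ?_) ?_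
  · have hgk := (mem_filter.1 hg).2
    have h1 := hterm0 g hgk
    have h2 : ∑ l : Fin (gats C g).length, ∑ W, ∑ i, ∑ j, ∑ γ, E1 g l W i j γ ≤
        (gats C g).length * V := by
      refine le_trans (sum_le_sum fun l _ => hterm1 g hgk l) (le_of_eq ?_)
      rw [sum_const, card_univ, Fintype.card_fin, nsmul_eq_mul]
    linarith
  · rw [← sum_mul]
    apply mul_le_mul_of_nonneg_right _ hV0
    unfold cost
    push_cast
    simp only [length_gats]
    exact sum_le_sum_of_subset_of_nonneg (filter_subset _ _) fun _ _ _ => by positivity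

end main

end Pool.Agent.V8H16.OW
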