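import Mathlib
import Pool.Agent.V8H16.OW.Main
import Pool.Agent.V8H16.OV.Three

/-!
# The gain of a circuit
-/

set_option autoImplicit false
set_option linter.unusedSectionVars false

open Finset Classical

namespace Pool.Agent.V8H16.OW

open Pool.Agent.V8H16.OV (cnt err)
open DomAC0

section gain

variable {n d M : ℕ}

/-- The sum of the differences of `F` at planted and random points. -/
noncomputable def gain (F : (Bool × Fin n → Fin d → Fin M → Bool) → ℝ) : ℝ :=
  ∑ i : Fin n, ∑ j : Fin n, ∑ W, ∑ γ : Gam d (Fin M),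
    (F (sq W (false, i) (true, j) (xs γ) (ys γ) true true) - F W)

theorem gain_eq (F : (Bool × Fin n → Fin d → Fin M → Bool) → ℝ) : gain F =
    ∑ i : Fin n, ∑ j : Fin n, ∑ W, ∑ γ : Gam d (Fin M),
      (F (sq W (false, i) (true, j) (xs γ) (ys γ) true true) -
        F (sq W (false, i) (true, j) (xs γ) (ys γ) true false) -
        F (sq W (false, i) (true, j) (xs γ) (ys γ) false true) +
        F (sq W (false, i) (true, j) (xs γ) (ys γ) false false)) := by
  unfold gain
  refine sum_congr rfl fun i _ => sum_congr rfl fun j _ => ?_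
  have hne : ((false, i) : Bool × Fin n) ≠ (true, j) := by simp
  simp only [sq_ff, sq_tf, sq_ft _ hne]
  simp only [sum_add_distrib, sum_sub_distrib]
  rw [sum_update_xs, sum_update_ys]
  have h : ∑ W, ∑ _γ : Gam d (Fin M), F W = Fintype.card (Gam d (Fin M)) * ∑ W, F W := by
    simp only [sum_const, card_univ, nsmul_eq_mul]
    rw [mul_sum]
  rw [h]
  ring

theorem four_le (f : Bool → Bool → Bool) :
    ind (f true true = true) - ind (f true false = true) - ind (f false true = true) +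
      ind (f false false = true) ≤ 2 * ind (¬ NJ f) := by
  unfold NJ ind
  simp only [Bool.forall_bool]
  cases f false false <;> cases f false true <;> cases f true false <;> cases f true true <;>
    norm_num

theorem gain_upper (f : (Bool × Fin n → Fin d → Fin M → Bool) → Bool) :
    gain (fun W => ind (f W = true)) ≤ 2 * ∑ W, ∑ i : Fin n, ∑ j : Fin n, ∑ γ : Gam d (Fin M),
      ind (¬ NJ (fun e e' => f (sq W (false, i) (true, j) (xs γ) (ys γ) e e'))) := by
  rw [gain_eq]
  have h : ∑ W, ∑ i : Fin n, ∑ j : Fin n, ∑ γ : Gam d (Fin M),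
      ind (¬ NJ (fun e e' => f (sq W (false, i) (true, j) (xs γ) (ys γ) e e'))) =
      ∑ i : Fin n, ∑ j : Fin n, ∑ W, ∑ γ : Gam d (Fin M),
      ind (¬ NJ (fun e e' => f (sq W (false, i) (true, j) (xs γ) (ys γ) e e'))) := by
    rw [sum_comm]
    refine sum_congr rfl fun i _ => ?_
    rw [sum_comm]
  rw [h, mul_sum]
  refine sum_le_sum fun i _ => ?_
  rw [mul_sum]
  refine sum_le_sum fun j _ => ?_
  rw [mul_sum]
  refine sum_le_sum fun W _ => ?_
  rw [mul_sum]
  refine sum_le_sum fun γ _ => ?_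
  exact four_le (fun e e' => f (sq W (false, i) (true, j) (xs γ) (ys γ) e e'))

theorem gain_sum {Ω : Type*} [Fintype Ω] (p : Ω → ℝ)
    (F : Ω → (Bool × Fin n → Fin d → Fin M → Bool) → ℝ) :
    gain (fun W => ∑ ω, p ω * F ω W) = ∑ ω, p ω * gain (F ω) := by
  unfold gain
  simp only [mul_sum]
  rw [sum_comm (s := (univ : Finset Ω))]
  refine sum_congr rfl fun i _ => ?_
  rw [sum_comm (s := (univ : Finset Ω))]
  refine sum_congr rfl fun j _ => ?_
  rw [sum_comm (s := (univ : Finset Ω))]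
  refine sum_congr rfl fun W _ => ?_
  rw [sum_comm (s := (univ : Finset Ω))]
  refine sum_congr rfl fun γ _ => ?_
  rw [← sum_sub_distrib]
  exact sum_congr rfl fun ω _ => by ring

theorem gain_lower [Nonempty (Fin M)] {g : (Bool × Fin n → Fin d → Fin M → Bool) → ℝ} {Δ : ℝ}
    (hΔ : Δ ≤ 1) (h0 : ∀ W, 0 ≤ g W) (h1 : ∀ W, g W ≤ 1)
    (hyes : ∀ W, Valid (fun r => vec (W r)) → Orth (fun r => vec (W r)) → (1 + Δ) / 2 ≤ g W)
    (hno : ∀ W, Valid (fun r => vec (W r)) → ¬ Orth (fun r => vec (W r)) → g W ≤ (1 - Δ) / 2) :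
    (n : ℝ) ^ 2 * (Fintype.card (Gam d (Fin M)) *
      (Fintype.card (Bool × Fin n → Fin d → Fin M → Bool) *
        (Δ - 48 * (n : ℝ) ^ 2 * (1 - 1 / (4 : ℝ) ^ M) ^ d))) ≤ gain g := by
  set NW : ℝ := (Fintype.card (Bool × Fin n → Fin d → Fin M → Bool) : ℝ) with hNW
  set NG : ℝ := (Fintype.card (Gam d (Fin M)) : ℝ) with hNG
  have hbad := bad_bound (n := n) (d := d) (M := M)
  rw [← hNW] at hbad
  have key : ∀ i j : Fin n, NG * (NW * (Δ - 48 * (n : ℝ) ^ 2 * (1 - 1 / (4 : ℝ) ^ M) ^ d)) ≤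
      ∑ W, ∑ γ : Gam d (Fin M),
        (g (sq W (false, i) (true, j) (xs γ) (ys γ) true true) - g W) := by
    intro i j
    have hpt : ∀ (W : Bool × Fin n → Fin d → Fin M → Bool) (γ : Gam d (Fin M)),
        Δ - 2 * (ind (Bad W) + ind (Bad (Function.update W (false, i) (xs γ))) +
          ind (Bad (Function.update W (true, j) (ys γ)))) ≤
        g (sq W (false, i) (true, j) (xs γ) (ys γ) true true) - g W := by
      intro W γ
      have hA := h0 (sq W (false, i) (true, j) (xs γ) (ys γ) true true)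
      have hB := h1 W
      have i1 := ind_nonneg (Bad W)
      have i2 := ind_nonneg (Bad (Function.update W (false, i) (xs γ)))
      have i3 := ind_nonneg (Bad (Function.update W (true, j) (ys γ)))
      by_cases b1 : Bad W
      · have : ind (Bad W) = 1 := if_pos b1
        linarith
      by_cases b2 : Bad (Function.update W (false, i) (xs γ))
      · have : ind (Bad (Function.update W (false, i) (xs γ))) = 1 := if_pos b2
        linarith
      by_cases b3 : Bad (Function.update W (true, j) (ys γ))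
      · have : ind (Bad (Function.update W (true, j) (ys γ))) = 1 := if_pos b3
        linarith
      obtain ⟨hv, ho⟩ := planted b2 b3
      have hy := hyes _ hv ho
      have hn' := hno W (not_bad_valid b1) (not_bad_orth b1)
      linarith
    refine le_trans ?_ (sum_le_sum fun W _ => sum_le_sum fun γ _ => hpt W γ)
    simp only [sum_sub_distrib, ← mul_sum, sum_add_distrib]
    rw [sum_update_xs (false, i) (fun W => ind (Bad W)),
      sum_update_ys (true, j) (fun W => ind (Bad W))]
    simp only [sum_const, card_univ, nsmul_eq_mul]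
    rw [← mul_sum, ← cnt_ind, ← hNG, ← hNW]
    have hNG0 : 0 ≤ NG := by positivity
    have := mul_le_mul_of_nonneg_left hbad hNG0
    nlinarith [this]
  unfold gain
  calc _ = ∑ _i : Fin n, ∑ _j : Fin n, NG * (NW * (Δ - 48 * (n : ℝ) ^ 2 *
        (1 - 1 / (4 : ℝ) ^ M) ^ d)) := by
        simp only [sum_const, card_univ, Fintype.card_fin, nsmul_eq_mul]
        ring
    _ ≤ _ := sum_le_sum fun i _ => sum_le_sum fun j _ => key i j

/-- The main inequality. -/
theorem core {R : ℕ} (hR : 1 ≤ R) (hM : 1 + (R : ℝ) * 2 ^ (R + 1) ≤ M) (hn : 1 ≤ n)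
    {h k : ℕ} (hh : 1 ≤ h) {S Bd : ℝ} (hBd0 : 0 ≤ Bd)
    (hBd : (24 * h : ℝ) ^ (2 * k) * ((h : ℝ) ^ 2 + (2 * n : ℝ) ^ 2 *
      (k * S * (1 / 2) ^ (h + 1))) ≤ Bd)
    {Ω : Type*} [Fintype Ω] (p : Ω → ℝ) (hp : ∀ ω, 0 ≤ p ω) (hp1 : ∑ ω, p ω = 1)
    (C : Ω → VecCircuit n d) (hC : ∀ ω, (C ω).depth ≤ k) (hS : ∀ ω, (cost (C ω) : ℝ) ≤ S) {Δ : ℝ}
    (hΔ : Δ ≤ 1)
    (herr : ∀ x, Valid x → err p (fun ω => (C ω).eval (inputs x) = true) (Orth x) ≤ (1 - Δ) / 2) :
    Δ ≤ 48 * (n : ℝ) ^ 2 * (1 - 1 / (4 : ℝ) ^ M) ^ d +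
      8 * S * (n : ℝ) ^ (1 / (R : ℝ)) * (1 + Bd) / (n : ℝ) ^ 2 := by
  have hMpos : 0 < M := by
    by_contra h0
    have : M = 0 := by omega
    rw [this] at hM
    have : (0 : ℝ) ≤ R * 2 ^ (R + 1) := by positivity
    simp only [Nat.cast_zero] at hM
    linarith
  have : Nonempty (Fin M) := ⟨⟨0, hMpos⟩⟩
  have hn0 : (0 : ℝ) < n := by exact_mod_cast hn
  set NW : ℝ := (Fintype.card (Bool × Fin n → Fin d → Fin M → Bool) : ℝ) with hNW
  set NG : ℝ := (Fintype.card (Gam d (Fin M)) : ℝ) with hNG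
  have hNW0 : 0 < NW := by
    rw [hNW]
    exact_mod_cast Fintype.card_pos
  have : Nonempty (Gam d (Fin M)) := ⟨fun _ => (⟨0, hMpos⟩, fun _ => true, fun _ => true)⟩
  have hNG0 : 0 < NG := by
    rw [hNG]
    exact_mod_cast Fintype.card_pos
  set g : (Bool × Fin n → Fin d → Fin M → Bool) → ℝ := fun W =>
    ∑ ω, p ω * ind ((C ω).eval (inputs (fun r => vec (W r))) = true) with hg
  have hg0 : ∀ W, 0 ≤ g W := fun W => sum_nonneg fun ω _ => mul_nonneg (hp ω) (ind_nonneg _)
  have hg1 : ∀ W, g W ≤ 1 := by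
    intro W
    rw [← hp1]
    refine sum_le_sum fun ω _ => ?_
    have := mul_le_mul_of_nonneg_left (ind_le_one
      ((C ω).eval (inputs (fun r => vec (W r))) = true)) (hp ω)
    linarith
  have hyes : ∀ W, Valid (fun r => vec (W r)) → Orth (fun r => vec (W r)) →
      (1 + Δ) / 2 ≤ g W := by
    intro W hv ho
    have h1 := herr _ hv
    have h2 : g W = 1 - err p (fun ω => (C ω).eval (inputs (fun r => vec (W r))) = true)
        (Orth (fun r => vec (W r))) := by
      rw [← hp1, hg]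
      unfold err
      rw [← sum_sub_distrib]
      refine sum_congr rfl fun ω _ => ?_
      unfold ind
      by_cases hc : (C ω).eval (inputs (fun r => vec (W r))) = true <;> simp [hc, ho]
    linarith
  have hno : ∀ W, Valid (fun r => vec (W r)) → ¬ Orth (fun r => vec (W r)) →
      g W ≤ (1 - Δ) / 2 := by
    intro W hv ho
    have h1 := herr _ hv
    have h2 : g W = err p (fun ω => (C ω).eval (inputs (fun r => vec (W r))) = true)
        (Orth (fun r => vec (W r))) := by
      rw [hg]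
      unfold err
      refine sum_congr rfl fun ω _ => ?_
      unfold ind
      by_cases hc : (C ω).eval (inputs (fun r => vec (W r))) = true <;> simp [hc, ho]
    linarith
  have hlow := gain_lower (d := d) hΔ hg0 hg1 hyes hno
  have hup : gain g ≤ 2 * (S * (NG * ((n : ℝ) ^ (1 / (R : ℝ)) * (NW * (4 * (1 + Bd)))))) := by
    rw [hg, gain_sum]
    calc ∑ ω, p ω * gain (fun W => ind ((C ω).eval (inputs (fun r => vec (W r))) = true))
        ≤ ∑ ω, p ω * (2 * (S * (NG * ((n : ℝ) ^ (1 / (R : ℝ)) * (NW * (4 * (1 + Bd))))))) := by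
          refine sum_le_sum fun ω _ => mul_le_mul_of_nonneg_left ?_ (hp ω)
          refine le_trans (gain_upper (fun W => (C ω).eval (inputs (fun r => vec (W r))))) ?_
          apply mul_le_mul_of_nonneg_left _ (by norm_num)
          refine le_trans (circuit_bound hR hM hn (C ω) hh (hC ω) hBd0 ?_) ?_
          · refine le_trans ?_ hBd
            apply mul_le_mul_of_nonneg_left _ (by positivity)
            apply add_le_add_right
            apply mul_le_mul_of_nonneg_left _ (by positivity)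
            apply mul_le_mul_of_nonneg_right _ (by positivity)
            exact mul_le_mul_of_nonneg_left (hS ω) (Nat.cast_nonneg _)
          · exact mul_le_mul_of_nonneg_right (hS ω) (by positivity)
      _ = _ := by rw [← sum_mul, hp1, one_mul]
  have hfin := hlow.trans hup
  rw [← hNW, ← hNG] at hfin
  have h3 : NG * NW * ((n : ℝ) ^ 2 * (Δ - 48 * (n : ℝ) ^ 2 * (1 - 1 / (4 : ℝ) ^ M) ^ d)) ≤
      NG * NW * (8 * S * (n : ℝ) ^ (1 / (R : ℝ)) * (1 + Bd)) := by
    calc _ = (n : ℝ) ^ 2 * (NG * (NW * (Δ - 48 * (n : ℝ) ^ 2 * (1 - 1 / (4 : ℝ) ^ M) ^ d))) := by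
          ring
      _ ≤ _ := hfin
      _ = _ := by ring
  have h4 := le_of_mul_le_mul_left h3 (mul_pos hNG0 hNW0)
  have h5 : Δ - 48 * (n : ℝ) ^ 2 * (1 - 1 / (4 : ℝ) ^ M) ^ d ≤
      8 * S * (n : ℝ) ^ (1 / (R : ℝ)) * (1 + Bd) / (n : ℝ) ^ 2 := by
    rw [le_div_iff₀ (by positivity)]
    linarith
  linarith

end gain

end Pool.Agent.V8H16.OW
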