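import Mathlib
import Pool.Agent.V8H16.OW.Gain
import Pool.Agent.V8H16.OV.Param

/-!
# The choice of the parameters
-/

set_option autoImplicit false

open Finset Classical

namespace Pool.Agent.V8H16.OW

open Pool.Agent.V8H16.OV (err eventually_log one_sub_pow_le)
open DomAC0

theorem param (ε : ℝ) (hε : 0 < ε) : ∃ C a : ℝ, 0 < a ∧ ∃ n₀ : ℕ, ∀ n d k : ℕ, n₀ ≤ n →
    C * Real.log n ≤ d → k * Real.log (Real.log n) ≤ a * Real.log n →
    ∃ R M h : ℕ, ∃ Bd : ℝ, 1 ≤ R ∧ 1 + (R : ℝ) * 2 ^ (R + 1) ≤ M ∧ 1 ≤ n ∧ 1 ≤ h ∧ 0 ≤ Bd ∧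
      (24 * h : ℝ) ^ (2 * k) * ((h : ℝ) ^ 2 + (2 * n : ℝ) ^ 2 *
        (k * (n : ℝ) ^ (2 - ε) * (1 / 2) ^ (h + 1))) ≤ Bd ∧
      48 * (n : ℝ) ^ 2 * (1 - 1 / (4 : ℝ) ^ M) ^ d +
        8 * (n : ℝ) ^ (2 - ε) * (n : ℝ) ^ (1 / (R : ℝ)) * (1 + Bd) / (n : ℝ) ^ 2 <
        (n : ℝ) ^ (-a) := by
  set R : ℕ := ⌈4 / ε⌉₊ with hRdef
  have hR0 : (4 / ε : ℝ) ≤ R := Nat.le_ceil _
  have hRpos : (0 : ℝ) < R := lt_of_lt_of_le (by positivity) hR0
  have hR1 : 1 ≤ R := by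
    have : 0 < R := by exact_mod_cast hRpos
    omega
  have hRε : 1 / (R : ℝ) ≤ ε / 4 := by
    rw [div_le_iff₀ hRpos]
    rw [div_le_iff₀ hε] at hR0
    linarith
  set M : ℕ := 1 + R * 2 ^ (R + 1) with hM
  set a : ℝ := min (ε / 32) 1 with ha
  have ha0 : 0 < a := lt_min (by positivity) one_pos
  have ha1 : a ≤ 1 := min_le_right _ _
  have ha2 : a ≤ ε / 32 := min_le_left _ _
  obtain ⟨n1, hn1⟩ := eventually_log (ε / 8) 1 (by positivity) 4
  obtain ⟨n2, hn2⟩ := eventually_log (ε / 2 - a) 32 (by linarith) 0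
  have hlog : ∃ n3 : ℕ, ∀ n : ℕ, n3 ≤ n → 400 ≤ Real.log n := by
    have := (Real.tendsto_log_atTop.comp tendsto_natCast_atTop_atTop).eventually_ge_atTop
      (400 : ℝ)
    exact Filter.eventually_atTop.1 this
  obtain ⟨n3, hn3⟩ := hlog
  refine ⟨4 * 4 ^ M, a, ha0, max (max n1 n2) (max n3 192), ?_⟩
  intro n d k hn hd hk
  have g1 := hn1 n (le_trans (le_trans (le_max_left _ _) (le_max_left _ _)) hn)
  have g2 := hn2 n (le_trans (le_trans (le_max_right _ _) (le_max_left _ _)) hn)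
  have g3 := hn3 n (le_trans (le_trans (le_max_left _ _) (le_max_right _ _)) hn)
  have g4 : 192 ≤ n := le_trans (le_trans (le_max_right _ _) (le_max_right _ _)) hn
  have hn192 : (192 : ℝ) ≤ n := by exact_mod_cast g4
  have hn0 : (0 : ℝ) < n := by linarith
  have hn1' : (1 : ℝ) ≤ n := by linarith
  set L : ℝ := Real.log n with hL
  have hL0 : 0 < L := by linarith
  have hLn : L ≤ n := by
    have := Real.log_le_sub_one_of_pos hn0
    linarith
  have hexpL : Real.exp L = n := Real.exp_log hn0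
  have hlogL : 1 ≤ Real.log L := by
    rw [Real.le_log_iff_exp_le hL0]
    have := Real.exp_one_lt_d9
    linarith
  have hkL : (k : ℝ) ≤ L := by
    have h1 : (k : ℝ) * 1 ≤ k * Real.log L := mul_le_mul_of_nonneg_left hlogL (Nat.cast_nonneg _)
    have h2 : a * L ≤ 1 * L := mul_le_mul_of_nonneg_right ha1 hL0.le
    linarith
  set h : ℕ := ⌈12 * L⌉₊ with hh
  have hh1 : 12 * L ≤ h := Nat.le_ceil _
  have hh2 : (h : ℝ) ≤ 13 * L := by
    have := Nat.ceil_lt_add_one (a := 12 * L) (by positivity)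
    linarith
  have hhpos : (1 : ℝ) ≤ h := by linarith
  have hh3 : 1 ≤ h := by exact_mod_cast hhpos
  set Bd : ℝ := (24 * h : ℝ) ^ (2 * k) * ((h : ℝ) ^ 2 + 1) with hBd
  refine ⟨R, M, h, Bd, hR1, ?_, ?_, hh3, by positivity, ?_, ?_⟩
  · rw [hM]
    push_cast
    exact le_rfl
  · omega
  · -- the tail of the switching lemma
    rw [hBd]
    apply mul_le_mul_of_nonneg_left _ (by positivity)
    apply add_le_add_right
    have e1 : ((1 : ℝ) / 2) ^ (h + 1) ≤ (n : ℝ)⁻¹ ^ 8 := by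
      have e2 : ((1 : ℝ) / 2) ^ (h + 1) ≤ (1 / 2) ^ h :=
        pow_le_pow_of_le_one (by norm_num) (by norm_num) (by omega)
      refine e2.trans ?_
      have e3 : ((1 : ℝ) / 2) ^ h = Real.exp (-(h * Real.log 2)) := by
        rw [Real.exp_neg, mul_comm, Real.exp_mul, Real.exp_log two_pos, Real.rpow_natCast,
          one_div, inv_pow]
      have e4 : (n : ℝ)⁻¹ ^ 8 = Real.exp (-(8 * L)) := by
        rw [Real.exp_neg, mul_comm, Real.exp_mul, hexpL, inv_pow]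
        norm_num
      rw [e3, e4]
      apply Real.exp_le_exp.2
      have := Real.log_two_gt_d9
      nlinarith
    have e5 : (n : ℝ) ^ (2 - ε) ≤ (n : ℝ) ^ 2 := by
      rw [← Real.rpow_natCast (n : ℝ) 2]
      apply Real.rpow_le_rpow_of_exponent_le hn1'
      push_cast
      linarith
    have e6 : (k : ℝ) * (n : ℝ) ^ (2 - ε) * (1 / 2) ^ (h + 1) ≤ n * (n : ℝ) ^ 2 * (n : ℝ)⁻¹ ^ 8 := by
      apply mul_le_mul _ e1 (by positivity) (by positivity)
      apply mul_le_mul (by linarith) e5 (by positivity) (by positivity)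
    refine le_trans (mul_le_mul_of_nonneg_left e6 (by positivity)) ?_
    have e7 : (2 * (n : ℝ)) ^ 2 * (n * (n : ℝ) ^ 2 * (n : ℝ)⁻¹ ^ 8) = 4 / (n : ℝ) ^ 3 := by
      field_simp
      norm_num
    rw [e7, div_le_one (by positivity)]
    nlinarith [sq_nonneg ((n : ℝ) - 1), pow_le_pow_left₀ (by norm_num) hn192 3]
  · have hB1 : 1 + Bd ≤ (n : ℝ) ^ (ε / 4) := by
      have e1 : 1 + Bd ≤ (24 * h : ℝ) ^ (2 * k + 2) := by
        have e2 : (1 : ℝ) ≤ (24 * h : ℝ) ^ (2 * k) := one_le_pow₀ (by linarith)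
        have e3 : (h : ℝ) ^ 2 + 2 ≤ (24 * h : ℝ) ^ 2 := by nlinarith
        calc 1 + Bd ≤ (24 * h : ℝ) ^ (2 * k) * 1 + (24 * h : ℝ) ^ (2 * k) * ((h : ℝ) ^ 2 + 1) := by
              rw [hBd]
              linarith
          _ = (24 * h : ℝ) ^ (2 * k) * ((h : ℝ) ^ 2 + 2) := by ring
          _ ≤ (24 * h : ℝ) ^ (2 * k) * (24 * h : ℝ) ^ 2 :=
              mul_le_mul_of_nonneg_left e3 (by positivity)
          _ = _ := by rw [pow_add]
      have e4 : (24 * h : ℝ) ≤ L ^ 2 := by nlinarith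
      have e5 : (24 * h : ℝ) ^ (2 * k + 2) ≤ L ^ (4 * k + 4) := by
        calc (24 * h : ℝ) ^ (2 * k + 2) ≤ (L ^ 2) ^ (2 * k + 2) :=
              pow_le_pow_left₀ (by positivity) e4 _
          _ = L ^ (4 * k + 4) := by
              rw [← pow_mul]
              congr 1
              ring
      have e6 : L ^ (4 * k + 4) = Real.exp (4 * (k * Real.log L)) * L ^ 4 := by
        rw [pow_add]
        congr 1
        rw [← Real.rpow_natCast, Real.rpow_def_of_pos hL0]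
        congr 1
        push_cast
        ring
      have e7 : Real.exp (4 * (k * Real.log L)) ≤ (n : ℝ) ^ (ε / 8) := by
        rw [Real.rpow_def_of_pos hn0]
        apply Real.exp_le_exp.2
        rw [← hL]
        nlinarith
      have e8 : (n : ℝ) ^ (ε / 4) = (n : ℝ) ^ (ε / 8) * (n : ℝ) ^ (ε / 8) := by
        rw [← Real.rpow_add hn0]
        congr 1
        ring
      rw [e8]
      refine (e1.trans e5).trans ?_
      rw [e6]
      apply mul_le_mul e7 _ (by positivity) (by positivity)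
      linarith
    have hA : 48 * (n : ℝ) ^ 2 * (1 - 1 / (4 : ℝ) ^ M) ^ d ≤ (n : ℝ) ^ (-a) / 4 := by
      have h4M : (0 : ℝ) < 4 ^ M := by positivity
      have e1 : (1 - 1 / (4 : ℝ) ^ M) ^ d ≤ (n : ℝ)⁻¹ ^ 4 := by
        refine (one_sub_pow_le (by
          rw [div_le_one h4M]
          exact one_le_pow₀ (by norm_num)) d).trans ?_
        have e4 : (n : ℝ)⁻¹ ^ 4 = Real.exp (-(4 * L)) := by
          rw [Real.exp_neg, mul_comm, Real.exp_mul, hexpL, inv_pow]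
          norm_num
        rw [e4]
        apply Real.exp_le_exp.2
        have : 4 * L ≤ 1 / 4 ^ M * d := by
          rw [one_div, inv_mul_eq_div, le_div_iff₀ h4M]
          linarith
        linarith
      have e2 : (n : ℝ)⁻¹ ≤ (n : ℝ) ^ (-a) := by
        rw [← Real.rpow_neg_one]
        exact Real.rpow_le_rpow_of_exponent_le hn1' (by linarith)
      have e3 : 48 * (n : ℝ) ^ 2 * (n : ℝ)⁻¹ ^ 4 ≤ (n : ℝ)⁻¹ / 4 := by
        have : 48 * (n : ℝ) ^ 2 * (n : ℝ)⁻¹ ^ 4 = 48 / (n : ℝ) ^ 2 := by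
          field_simp
        rw [this, div_le_iff₀ (by positivity)]
        have : (n : ℝ)⁻¹ / 4 * (n : ℝ) ^ 2 = n / 4 := by
          field_simp
        rw [this]
        linarith
      calc _ ≤ 48 * (n : ℝ) ^ 2 * (n : ℝ)⁻¹ ^ 4 := mul_le_mul_of_nonneg_left e1 (by positivity)
        _ ≤ (n : ℝ)⁻¹ / 4 := e3
        _ ≤ _ := by linarith
    have hB : 8 * (n : ℝ) ^ (2 - ε) * (n : ℝ) ^ (1 / (R : ℝ)) * (1 + Bd) / (n : ℝ) ^ 2 ≤
        (n : ℝ) ^ (-a) / 4 := by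
      have e1 : (n : ℝ) ^ (1 / (R : ℝ)) ≤ (n : ℝ) ^ (ε / 4) :=
        Real.rpow_le_rpow_of_exponent_le hn1' hRε
      have hBd0 : 0 ≤ 1 + Bd := by positivity
      have e2 : 8 * (n : ℝ) ^ (2 - ε) * (n : ℝ) ^ (1 / (R : ℝ)) * (1 + Bd) ≤
          8 * (n : ℝ) ^ (2 - ε) * (n : ℝ) ^ (ε / 4) * (n : ℝ) ^ (ε / 4) := by
        apply mul_le_mul _ hB1 hBd0 (by positivity)
        exact mul_le_mul_of_nonneg_left e1 (by positivity)
      have e3 : 8 * (n : ℝ) ^ (2 - ε) * (n : ℝ) ^ (ε / 4) * (n : ℝ) ^ (ε / 4) =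
          8 * (n : ℝ) ^ (-(ε / 2)) * (n : ℝ) ^ 2 := by
        rw [← Real.rpow_natCast (n : ℝ) 2, mul_assoc, mul_assoc, mul_assoc, ← Real.rpow_add hn0,
          ← Real.rpow_add hn0, ← Real.rpow_add hn0]
        congr 2
        push_cast
        ring
      have e4 : (n : ℝ) ^ (-a) = (n : ℝ) ^ (ε / 2 - a) * (n : ℝ) ^ (-(ε / 2)) := by
        rw [← Real.rpow_add hn0]
        congr 1
        ring
      have e5 : (32 : ℝ) ≤ (n : ℝ) ^ (ε / 2 - a) := by simpa using g2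
      have e6 : 0 ≤ (n : ℝ) ^ (-(ε / 2)) := by positivity
      rw [div_le_iff₀ (by positivity)]
      refine e2.trans ?_
      rw [e3, e4]
      have e7 : 32 * (n : ℝ) ^ (-(ε / 2)) ≤ (n : ℝ) ^ (ε / 2 - a) * (n : ℝ) ^ (-(ε / 2)) :=
        mul_le_mul_of_nonneg_right e5 e6
      have e8 : (0 : ℝ) ≤ (n : ℝ) ^ 2 := by positivity
      nlinarith [mul_le_mul_of_nonneg_right e7 e8]
    have hC : 0 < (n : ℝ) ^ (-a) := by positivity
    linarith

theorem small_depth (ε : ℝ) (hε : 0 < ε) : ∃ C a : ℝ, 0 < a ∧ ∃ n₀ : ℕ, ∀ n d k : ℕ, n₀ ≤ n →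
    C * Real.log n ≤ d → k * Real.log (Real.log n) ≤ a * Real.log n →
    ∀ (Ω : Type) [Fintype Ω] (p : Ω → ℝ), (∀ ω, 0 ≤ p ω) → ∑ ω, p ω = 1 →
    ∀ D : Ω → VecCircuit n d,
      (∀ ω, (D ω).depth ≤ k ∧ (cost (D ω) : ℝ) ≤ (n : ℝ) ^ (2 - ε)) →
      ∃ x : Bool × Fin n → Fin d → Bool, Valid x ∧
        (1 - (n : ℝ) ^ (-a)) / 2 ≤ err p (fun ω => (D ω).eval (inputs x) = true) (Orth x) := by
  obtain ⟨C, a, ha, n₀, h⟩ := param ε hε
  refine ⟨C, a, ha, n₀, ?_⟩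
  intro n d k hn hd hk Ω _ p hp hp1 D hD
  obtain ⟨R, M, l, Bd, hR, hM, hn1, hl, hBd0, hBd, hlt⟩ := h n d k hn hd hk
  by_contra hcon
  push Not at hcon
  have hΔ : (n : ℝ) ^ (-a) ≤ 1 :=
    Real.rpow_le_one_of_one_le_of_nonpos (by exact_mod_cast hn1) (by linarith)
  have := core hR hM hn1 hl hBd0 hBd p hp hp1 D (fun ω => (hD ω).1) (fun ω => (hD ω).2) hΔ
    fun x hx => (hcon x hx).le
  linarith

end Pool.Agent.V8H16.OW
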